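import Pool.Agent.H319R3.GC.Defs

/-!
Natural densities of invariant sets of generalised Collatz maps of coprime type: definitions.
-/

set_option autoImplicit false

namespace Pool.Agent.H319R3.DN
open Pool.Agent.H319R3.GC Finset

/-- `T`-invariant sets of integers -/
def Inv (d : ℕ) (m r : ℕ → ℤ) (S : Set ℤ) : Prop := ∀ x : ℤ, x ∈ S ↔ Tm d m r x ∈ S

/-- number of elements of `S` with `a ≤ σ x < b` in the class of `c` mod `Q` (`σ = 1` or `-1`) -/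
noncomputable def nw (S : Set ℤ) (σ : ℤ) (a b : ℝ) (Q : ℕ) (c : ℤ) : ℝ :=
  ({x : ℤ | x ∈ S ∧ a ≤ ((σ * x : ℤ) : ℝ) ∧ ((σ * x : ℤ) : ℝ) < b ∧ (Q : ℤ) ∣ x - c}.ncard : ℝ)

/-- window density of `S` at the scale `e^t` on the side `σ` -/
noncomputable def Fw (S : Set ℤ) (σ : ℤ) (t : ℝ) : ℝ :=
  nw S σ (Real.exp t) (2 * Real.exp t) 1 0 / Real.exp t

/-- number of elements of `S` with `0 < σ x < X` -/
noncomputable def G (S : Set ℤ) (σ : ℤ) (X : ℝ) : ℝ :=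
  ({x : ℤ | x ∈ S ∧ 0 < σ * x ∧ ((σ * x : ℤ) : ℝ) < X}.ncard : ℝ)

end Pool.Agent.H319R3.DN
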