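import Pool.Agent.H319R3.DN.Defs
import Pool.Agent.H319R3.GC.S3

/-! Blueprint: natural densities of invariant sets of generalised Collatz maps of coprime type
(all statements, with `sorry`). Never import this file in a hand-in. -/

set_option autoImplicit false

namespace Pool.Agent.H319R3.DN.Stubs
open Pool.Agent.H319R3.GC Pool.Agent.H319R3.DN Finset Filter Topology

variable {d : ℕ} {m r : ℕ → ℤ}

/-! ### T1 : file T1.lean, one-sided windows, itineraries -/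

theorem nw_fin {σ : ℤ} (hσ : σ = 1 ∨ σ = -1) {a b : ℝ} (hab : a ≤ b) {Q : ℕ} (hQ : 0 < Q) (c : ℤ) :
    {x : ℤ | a ≤ ((σ * x : ℤ) : ℝ) ∧ ((σ * x : ℤ) : ℝ) < b ∧ (Q : ℤ) ∣ x - c}.Finite ∧
    ({x : ℤ | a ≤ ((σ * x : ℤ) : ℝ) ∧ ((σ * x : ℤ) : ℝ) < b ∧ (Q : ℤ) ∣ x - c}.ncard : ℝ)
      ≤ (b - a) / Q + 1 := by sorry

theorem nw_le (S : Set ℤ) {σ : ℤ} (hσ : σ = 1 ∨ σ = -1) {a b : ℝ} (hab : a ≤ b) {Q : ℕ}
    (hQ : 0 < Q) (c : ℤ) : nw S σ a b Q c ≤ (b - a) / Q + 1 := by sorry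

/-- every word is an itinerary; more precisely `x` has the itinerary `w` as soon as
`M_w x - W_w` is divisible by `d^k` -/
theorem wd_of_dvd (h : Adm d m r) {k : ℕ} {w : List ℕ} (hw : w ∈ LW d k) {x : ℤ}
    (hx : (d : ℤ) ^ k ∣ Mw m w * x - Ww d m r w) : wd d m r k x = w := by sorry

/-- splitting a class mod `Q` into classes mod `Q R` -/
theorem nw_split (S : Set ℤ) {σ : ℤ} (hσ : σ = 1 ∨ σ = -1) {a b : ℝ} (hab : a ≤ b) {Q R : ℕ}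
    (hQ : 0 < Q) (hR : 0 < R) (c : ℤ) :
    nw S σ a b Q c = ∑ j ∈ range R, nw S σ a b (Q * R) (c + Q * j) := by sorry

/-! ### T2 : file T2.lean, the exact count of a group (uses T1) -/

open scoped Classical in
theorem count_exact (h : Adm d m r) {S : Set ℤ} (hS : Inv d m r S) {τ : ℤ} (hτ : τ = 1 ∨ τ = -1)
    {a' : ℝ} (ha' : 0 < a') {k Q : ℕ} (hQ : 0 < Q) (c : ℤ) {M : ℤ} (hM : M ∈ Ms d m k)
    (Z : Finset ℤ) (hZ : ∀ z : ℤ, z ∈ Z ↔ z ∈ S ∧ a' ≤ ((τ * z : ℤ) : ℝ) ∧ ((τ * z : ℤ) : ℝ) < 2 * a') :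
    ({x : ℤ | x ∈ S ∧ (Q : ℤ) ∣ x - c ∧ Mw m (wd d m r k x) = M ∧
        a' ≤ ((τ * (Tm d m r)^[k] x : ℤ) : ℝ) ∧ ((τ * (Tm d m r)^[k] x : ℤ) : ℝ) < 2 * a'}.ncard : ℝ)
      = ∑ z ∈ Z, cnt (gr d m k M) (Ww d m r) (M.natAbs * Q) (M * c - (d : ℤ) ^ k * z) := by sorry

/-! ### T3 : file T3.lean, two classes of one group (uses T2) -/

open scoped Classical in
theorem group_diff (h : Adm d m r) {S : Set ℤ} (hS : Inv d m r S) {τ : ℤ} (hτ : τ = 1 ∨ τ = -1)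
    {a : ℝ} (ha : 0 < a) {k Q Q₀ : ℕ} (hQ : 0 < Q) (hQ₀ : 0 < Q₀) (hQQ : Q₀ ∣ Q)
    (hQd : Nat.Coprime Q d) (hk : (d : ℝ) ^ k * Q ≤ a) (c₁ c₂ : ℤ) {M : ℤ} (hM : M ∈ Ms d m k)
    (hQM : Q₀ ∣ M.natAbs) {a' : ℝ} (ha' : a' = |(M : ℝ)| * a / (d : ℝ) ^ k) :
    |({x : ℤ | x ∈ S ∧ (Q : ℤ) ∣ x - c₁ ∧ Mw m (wd d m r k x) = M ∧
        a' ≤ ((τ * (Tm d m r)^[k] x : ℤ) : ℝ) ∧ ((τ * (Tm d m r)^[k] x : ℤ) : ℝ) < 2 * a'}.ncard : ℝ)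
      - ({x : ℤ | x ∈ S ∧ (Q : ℤ) ∣ x - c₂ ∧ Mw m (wd d m r k x) = M ∧
        a' ≤ ((τ * (Tm d m r)^[k] x : ℤ) : ℝ) ∧ ((τ * (Tm d m r)^[k] x : ℤ) : ℝ) < 2 * a'}.ncard : ℝ)|
      ≤ 4 * a / ((d : ℝ) ^ k * Q) * tv (gr d m k M) (Ww d m r) Q₀ (M.natAbs * Q) := by sorry

/-! ### T4 : file T4.lean, the window and the groups (uses T1) -/

open scoped Classical in
/-- `Bad` = words with large offset or with a multiplier outside the given range -/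
theorem window_groups (h : Adm d m r) (S : Set ℤ) {σ : ℤ} (hσ : σ = 1 ∨ σ = -1)
    {a : ℝ} (ha : 0 < a) {k Q i₁ i₂ : ℕ} (hQ : 0 < Q) (hQd : Nat.Coprime Q d)
    (hk : (d : ℝ) ^ k * Q ≤ a) (c : ℤ) (Bad : Finset (List ℕ)) {V : ℝ}
    (hV0 : 0 ≤ V) (hVa : (d : ℝ) ^ k * V < a)
    (hV : ∀ w ∈ LW d k, w ∉ Bad → |(Ww d m r w : ℝ)| ≤ (d : ℝ) ^ k * V)
    (hcnt : ∀ w ∈ LW d k, w ∉ Bad → PP d m ^ i₁ ∣ (Mw m w).natAbs ∧ (Mw m w).natAbs ∣ PP d m ^ i₂) :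
    |nw S σ a (2 * a) Q c
      - ∑ M ∈ (Ms d m k).filter (fun M => PP d m ^ i₁ ∣ M.natAbs ∧ M.natAbs ∣ PP d m ^ i₂),
        ({x : ℤ | x ∈ S ∧ (Q : ℤ) ∣ x - c ∧ Mw m (wd d m r k x) = M ∧
          |(M : ℝ)| * a / (d : ℝ) ^ k ≤ ((σ * M.sign * (Tm d m r)^[k] x : ℤ) : ℝ) ∧
          ((σ * M.sign * (Tm d m r)^[k] x : ℤ) : ℝ) < 2 * (|(M : ℝ)| * a / (d : ℝ) ^ k)}.ncard : ℝ)|
      ≤ Bad.card * (4 * a / ((d : ℝ) ^ k * Q)) + 8 * ((d : ℝ) ^ k * V / Q + 1) := by sorry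

/-! ### T5 : file T5.lean, equidistribution in residue classes (uses T3, T4) -/

theorem equi (h : Adm d m r) (B : ℕ) : ∃ ν L₀ C : ℝ, 0 < ν ∧ 1 ≤ L₀ ∧ 0 < C ∧
    ∀ S : Set ℤ, Inv d m r S → ∀ σ : ℤ, (σ = 1 ∨ σ = -1) → ∀ a : ℝ, 0 < a → L₀ ≤ Real.log a →
      ∀ c₁ c₂ : ℤ,
      |nw S σ a (2 * a) (PP d m ^ ⌊ν * Real.log a⌋₊) c₁
        - nw S σ a (2 * a) (PP d m ^ ⌊ν * Real.log a⌋₊) c₂|
        ≤ C / (Real.log a) ^ B * (a / (PP d m ^ ⌊ν * Real.log a⌋₊ : ℕ)) := by sorry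

/-! ### T6 : file T6.lean, coarse classes (uses T5) -/

theorem equi_coarse (h : Adm d m r) (B : ℕ) : ∃ L₀ C : ℝ, 1 ≤ L₀ ∧ 0 < C ∧
    ∀ S : Set ℤ, Inv d m r S → ∀ σ : ℤ, (σ = 1 ∨ σ = -1) → ∀ a : ℝ, 0 < a → L₀ ≤ Real.log a →
      ∀ Q : ℕ, Q ∣ PP d m → ∀ c : ℤ,
      |Q * nw S σ a (2 * a) Q c - nw S σ a (2 * a) 1 0| ≤ C * Q * a / (Real.log a) ^ B := by sorry

/-! ### T7 : file T7.lean, the harmonic relation (uses T6) -/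

theorem harm (h : Adm d m r) : ∃ K t₀ : ℝ, 0 < K ∧ 1 ≤ t₀ ∧
    ∀ S : Set ℤ, Inv d m r S → ∀ σ : ℤ, (σ = 1 ∨ σ = -1) → ∀ t : ℝ, t₀ ≤ t →
      |Fw S σ t - (∑ i ∈ range d, Fw S (σ * (m i).sign) (t + Real.log (|(m i : ℝ)| / d))) / d|
        ≤ K / t ^ 2 := by sorry

/-! ### T8 : file T8.lean, a net of combinations -/

theorem net {α β : ℝ} (hirr : Irrational (α / β)) {δ A : ℝ} (hδ : 0 < δ) :
    ∃ (N : ℕ) (u₀ : ℝ), ∀ u : ℝ, |u - u₀| ≤ A → ∃ p q : ℕ, Even p ∧ Even q ∧ p + q ≤ N ∧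
      |u - (p * α + q * β)| < δ := by sorry

/-- the steps of a map of coprime type are not commensurable -/
theorem irr (h : Adm d m r) {i j : ℕ} (hi : i < d) (hj : j < d)
    (hij : (m i).natAbs ≠ (m j).natAbs) :
    Irrational (Real.log (|(m i : ℝ)| / d) / Real.log (|(m j : ℝ)| / d)) := by sorry

theorem drift (h : Adm d m r) : ∑ i ∈ range d, Real.log (|(m i : ℝ)| / d) < 0 := by sorry

/-! ### T9 : file T9.lean, propagation of near-extremal values -/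

theorem propagate (hd : 1 ≤ d) {ξ s : ℕ → ℝ} (hs : ∀ i < d, s i = 1 ∨ s i = -1) {F : ℝ → ℝ}
    {C t₀ M : ℝ} (hM : ∀ δ, 0 < δ → ∀ᶠ t in atTop, |F t| < M + δ)
    (hh : ∀ t, t₀ ≤ t → |F t - (∑ i ∈ range d, s i * F (t + ξ i)) / d| ≤ C / t ^ 2) :
    ∀ n : ℕ, ∀ ε : ℝ, 0 < ε → ∃ δ : ℝ, 0 < δ ∧ ∃ T : ℝ, ∀ t : ℝ, T ≤ t → ∀ τ : ℝ, τ = 1 ∨ τ = -1 →
      M - δ < τ * F t → ∀ l : List ℕ, (∀ i ∈ l, i < d) → l.length ≤ n →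
        M - ε < τ * ((l.map s).prod * F (t + (l.map ξ).sum)) := by sorry

/-! ### T10 : file T10.lean, signed relation with a negative sign: the limit is zero (uses T8, T9) -/

theorem signed_limit (hd : 2 ≤ d) {ξ s : ℕ → ℝ} (hs : ∀ i < d, s i = 1 ∨ s i = -1) {F : ℝ → ℝ}
    {C t₀ L K : ℝ} (hb : ∀ t, t₀ ≤ t → |F t| ≤ K)
    (hL : ∀ t u, t₀ ≤ t → 0 ≤ u → u ≤ 1 → |F (t + u) - F t| ≤ L * (u + Real.exp (-t)))
    (hh : ∀ t, t₀ ≤ t → |F t - (∑ i ∈ range d, s i * F (t + ξ i)) / d| ≤ C / t ^ 2)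
    {i j l : ℕ} (hi : i < d) (hj : j < d) (hl : l < d) (hirr : Irrational (ξ i / ξ j))
    (hneg : s l = -1) : Tendsto F atTop (𝓝 0) := by sorry

/-! ### T11 : file T11.lean, the unsigned relation: convergence (uses T8, T9) -/

theorem limit (hd : 2 ≤ d) {ξ : ℕ → ℝ} {F : ℝ → ℝ} (hF : Measurable F)
    {C t₀ L K : ℝ} (h0 : ∀ t, t₀ ≤ t → 0 ≤ F t) (hb : ∀ t, t₀ ≤ t → F t ≤ K)
    (hL : ∀ t u, t₀ ≤ t → 0 ≤ u → u ≤ 1 → |F (t + u) - F t| ≤ L * (u + Real.exp (-t)))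
    (hh : ∀ t, t₀ ≤ t → |F t - (∑ i ∈ range d, F (t + ξ i)) / d| ≤ C / t ^ 2)
    (hdr : ∑ i ∈ range d, ξ i < 0)
    {i j : ℕ} (hi : i < d) (hj : j < d) (hirr : Irrational (ξ i / ξ j)) :
    ∃ l : ℝ, Tendsto F atTop (𝓝 l) := by sorry

/-! ### T12 : file T12.lean, window densities -/

theorem Fw_eq (S : Set ℤ) {σ : ℤ} (hσ : σ = 1 ∨ σ = -1) (t : ℝ) :
    Fw S σ t = (G S σ (2 * Real.exp t) - G S σ (Real.exp t)) / Real.exp t := by sorry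

theorem Fw_meas (S : Set ℤ) {σ : ℤ} (hσ : σ = 1 ∨ σ = -1) : Measurable (Fw S σ) := by sorry

theorem Fw_nonneg (S : Set ℤ) (σ : ℤ) (t : ℝ) : 0 ≤ Fw S σ t := by sorry

theorem Fw_le (S : Set ℤ) {σ : ℤ} (hσ : σ = 1 ∨ σ = -1) {t : ℝ} (ht : 0 ≤ t) : Fw S σ t ≤ 2 := by
  sorry

theorem Fw_lip (S : Set ℤ) {σ : ℤ} (hσ : σ = 1 ∨ σ = -1) {t u : ℝ} (ht : 0 ≤ t) (hu : 0 ≤ u)
    (hu1 : u ≤ 1) : |Fw S σ (t + u) - Fw S σ t| ≤ 20 * (u + Real.exp (-t)) := by sorry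

theorem dens_of_Fw (S : Set ℤ) {σ : ℤ} (hσ : σ = 1 ∨ σ = -1) {l : ℝ}
    (hl : Tendsto (Fw S σ) atTop (𝓝 l)) : Tendsto (fun X : ℝ => G S σ X / X) atTop (𝓝 l) := by sorry

/-! ### T13 : file T13.lean, the densities exist (uses T7, T8, T10, T11, T12) -/

theorem density (h : Adm d m r) {i j : ℕ} (hi : i < d) (hj : j < d)
    (hij : (m i).natAbs ≠ (m j).natAbs) {S : Set ℤ} (hS : Inv d m r S) :
    ∃ l : ℤ → ℝ, (∀ σ : ℤ, (σ = 1 ∨ σ = -1) → Tendsto (fun X : ℝ => G S σ X / X) atTop (𝓝 (l σ))) ∧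
      ((∃ i < d, m i < 0) → l 1 = l (-1)) := by sorry

/-! ### T14 : file T14.lean, countable additivity (uses GC.Main) -/

/-- the density of an invariant set that avoids `[-y,y]` is small -/
theorem tail_small (h : Adm d m r) : ∃ C : ℝ, 0 < C ∧ ∀ S : Set ℤ, Inv d m r S → ∀ y : ℝ, 2 ≤ y →
    (∀ x ∈ S, y < |(x : ℝ)|) → ∀ σ : ℤ, (σ = 1 ∨ σ = -1) → ∀ X : ℝ, 1 ≤ X →
      G S σ X ≤ C * X / Real.log y := by sorry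

/-- the natural density is countably additive on invariant sets -/
theorem additive (h : Adm d m r) {i j : ℕ} (hi : i < d) (hj : j < d)
    (hij : (m i).natAbs ≠ (m j).natAbs) {S : ℕ → Set ℤ} (hS : ∀ n, Inv d m r (S n))
    (hdis : ∀ n n', n ≠ n' → Disjoint (S n) (S n')) {σ : ℤ} (hσ : σ = 1 ∨ σ = -1)
    {δ : ℕ → ℝ} (hδ : ∀ n, Tendsto (fun X : ℝ => G (S n) σ X / X) atTop (𝓝 (δ n))) :
    Summable δ ∧ Tendsto (fun X : ℝ => G (⋃ n, S n) σ X / X) atTop (𝓝 (∑' n, δ n)) := by sorry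

end Pool.Agent.H319R3.DN.Stubs
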