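import Pool.Agent.H319R3.DN.Defs
import Pool.Agent.H319R3.GC.W1
import Pool.Agent.H319R3.GC.W2

/-! Natural densities of invariant sets of generalised Collatz maps, task T1: one-sided windows,
itineraries. -/

set_option autoImplicit false

namespace Pool.Agent.H319R3.DN
open Pool.Agent.H319R3.GC Finset Filter Topology

variable {d : ℕ} {m r : ℕ → ℤ}

private theorem t1_side (a b : ℝ) {Q : ℕ} (hQ : 0 < Q) (hab : a ≤ b) (c : ℤ) :
    ∃ F : Finset ℤ, (∀ x : ℤ, a ≤ (x : ℝ) → (x : ℝ) < b → (Q : ℤ) ∣ x - c → x ∈ F) ∧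
      (F.card : ℝ) ≤ (b - a) / Q + 1 := by
  have hQr : (0 : ℝ) < Q := by exact_mod_cast hQ
  refine ⟨(Finset.Ico ⌈(a - c) / Q⌉ ⌈(b - c) / Q⌉).image (fun t : ℤ => c + Q * t), ?_, ?_⟩
  · intro x h1 h2 ⟨t, ht⟩
    rw [mem_image]
    refine ⟨t, ?_, by linarith⟩
    have hx : (x : ℝ) - c = Q * t := by exact_mod_cast ht
    rw [Finset.mem_Ico]
    constructor
    · rw [Int.ceil_le, div_le_iff₀ hQr]; nlinarith
    · rw [Int.lt_ceil, lt_div_iff₀ hQr]; nlinarith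
  · refine le_trans (Nat.cast_le.2 Finset.card_image_le) ?_
    rw [Int.card_Ico]
    have h3 : (a - c) / Q ≤ (b - c) / Q := by gcongr
    have h4 : ⌈(a - c) / Q⌉ ≤ ⌈(b - c) / Q⌉ := Int.ceil_mono h3
    have h5 : (((⌈(b - c) / Q⌉ - ⌈(a - c) / Q⌉).toNat : ℤ) : ℝ)
        = ((⌈(b - c) / Q⌉ - ⌈(a - c) / Q⌉ : ℤ) : ℝ) := by
      rw [Int.toNat_of_nonneg (by omega)]
    have h6 := Int.ceil_lt_add_one ((b - c) / (Q : ℝ))
    have h7 := Int.le_ceil ((a - c) / (Q : ℝ))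
    have h8 : (b - a) / Q = (b - c) / Q - (a - c) / Q := by ring
    rw [Int.cast_natCast] at h5
    rw [h5, Int.cast_sub]
    linarith

/-- one-sided windows in a class are finite and have at most `(b-a)/Q + 1` elements -/
theorem nw_fin {σ : ℤ} (hσ : σ = 1 ∨ σ = -1) {a b : ℝ} (hab : a ≤ b) {Q : ℕ} (hQ : 0 < Q) (c : ℤ) :
    {x : ℤ | a ≤ ((σ * x : ℤ) : ℝ) ∧ ((σ * x : ℤ) : ℝ) < b ∧ (Q : ℤ) ∣ x - c}.Finite ∧
    ({x : ℤ | a ≤ ((σ * x : ℤ) : ℝ) ∧ ((σ * x : ℤ) : ℝ) < b ∧ (Q : ℤ) ∣ x - c}.ncard : ℝ)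
      ≤ (b - a) / Q + 1 := by
  obtain ⟨F, hF, hFc⟩ := t1_side a b hQ hab (σ * c)
  have hσσ : σ * σ = 1 := by rcases hσ with rfl | rfl <;> norm_num
  have hsub : {x : ℤ | a ≤ ((σ * x : ℤ) : ℝ) ∧ ((σ * x : ℤ) : ℝ) < b ∧ (Q : ℤ) ∣ x - c}
      ⊆ ((F.image (fun x => σ * x) : Finset ℤ) : Set ℤ) := by
    rintro x ⟨h1, h2, h3⟩
    rw [Finset.mem_coe, mem_image]
    refine ⟨σ * x, hF (σ * x) h1 h2 ?_, ?_⟩
    · rw [← mul_sub]
      exact Dvd.dvd.mul_left h3 _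
    · rw [← mul_assoc, hσσ, one_mul]
  refine ⟨(Finset.finite_toSet _).subset hsub, ?_⟩
  have h1 := Set.ncard_le_ncard hsub (Finset.finite_toSet _)
  rw [Set.ncard_coe_finset] at h1
  have h2 : (F.image (fun x => σ * x)).card ≤ F.card := Finset.card_image_le
  have h3 : ({x : ℤ | a ≤ ((σ * x : ℤ) : ℝ) ∧ ((σ * x : ℤ) : ℝ) < b ∧ (Q : ℤ) ∣ x - c}.ncard : ℝ)
      ≤ (F.card : ℝ) := by exact_mod_cast h1.trans h2
  exact h3.trans hFc

private theorem nw_set_fin (S : Set ℤ) {σ : ℤ} (hσ : σ = 1 ∨ σ = -1) {a b : ℝ} (hab : a ≤ b) {Q : ℕ}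
    (hQ : 0 < Q) (c : ℤ) :
    {x : ℤ | x ∈ S ∧ a ≤ ((σ * x : ℤ) : ℝ) ∧ ((σ * x : ℤ) : ℝ) < b ∧ (Q : ℤ) ∣ x - c}.Finite :=
  (nw_fin hσ hab hQ c).1.subset (by rintro x ⟨_, h1, h2, h3⟩; exact ⟨h1, h2, h3⟩)

theorem nw_le (S : Set ℤ) {σ : ℤ} (hσ : σ = 1 ∨ σ = -1) {a b : ℝ} (hab : a ≤ b) {Q : ℕ}
    (hQ : 0 < Q) (c : ℤ) : nw S σ a b Q c ≤ (b - a) / Q + 1 := by
  obtain ⟨h1, h2⟩ := nw_fin hσ hab hQ c
  refine le_trans ?_ h2
  unfold nw
  exact_mod_cast Set.ncard_le_ncard (by rintro x ⟨_, h1, h2, h3⟩; exact ⟨h1, h2, h3⟩) h1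

/-- every word is an itinerary; more precisely `x` has the itinerary `w` as soon as
`M_w x - W_w` is divisible by `d^k` -/
theorem wd_of_dvd (h : Adm d m r) {k : ℕ} {w : List ℕ} (hw : w ∈ LW d k) {x : ℤ}
    (hx : (d : ℤ) ^ k ∣ Mw m w * x - Ww d m r w) : wd d m r k x = w := by
  have hd2 : 2 ≤ d := h.two_le
  have hd0 : (0 : ℤ) < d := by exact_mod_cast (by omega : 0 < d)
  induction k generalizing w x with
  | zero =>
    have := (mem_LW.1 hw).1
    rw [List.length_eq_zero_iff.1 this]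
    rfl
  | succ k ih =>
    obtain ⟨hlen, hlt⟩ := mem_LW.1 hw
    cases w with
    | nil => simp at hlen
    | cons i v =>
      have hi : i < d := hlt i (by simp)
      have hvlt : ∀ j ∈ v, j < d := fun j hj => hlt j (by simp [hj])
      have hv : v ∈ LW d k := mem_LW.2 ⟨by simpa using hlen, hvlt⟩
      have hcop := Mw_cop h hvlt
      have e : Mw m (i :: v) * x - Ww d m r (i :: v)
          = Mw m v * (m i * x - r i) - d * Ww d m r v := by
        rw [Mw_cons]; simp only [Ww]; ring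
      rw [e] at hx
      have hd1 : (d : ℤ) ∣ Mw m v * (m i * x - r i) := by
        have h1 : (d : ℤ) ∣ Mw m v * (m i * x - r i) - d * Ww d m r v :=
          (dvd_pow_self (d : ℤ) (by omega)).trans hx
        have h2 : Mw m v * (m i * x - r i)
            = (Mw m v * (m i * x - r i) - d * Ww d m r v) + d * Ww d m r v := by ring
        rw [h2]
        exact dvd_add h1 (dvd_mul_right _ _)
      have hd3 : (d : ℤ) ∣ m i * x - r i := hcop.symm.dvd_of_dvd_mul_left hd1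
      have hd4 : (d : ℤ) ∣ m i * (x - i) := by
        have h1 := h.adm i hi
        have h2 : m i * (x - i) = (m i * x - r i) - (m i * i - r i) := by ring
        rw [h2]
        exact dvd_sub hd3 h1
      have hd5 : (d : ℤ) ∣ x - i := (h.cop i hi).symm.dvd_of_dvd_mul_left hd4
      have hmod : (x % d).toNat = i := by
        have h1 : (i : ℤ) % d = x % d := Int.ModEq.eq (Int.modEq_iff_dvd.2 hd5)
        have h2 : (i : ℤ) % d = i := Int.emod_eq_of_lt (by omega) (by exact_mod_cast hi)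
        rw [← h1, h2]
        simp
      have hT : Tm d m r x = (m i * x - r i) / d := by
        unfold Tm; rw [hmod]
      have hT' : (d : ℤ) * Tm d m r x = m i * x - r i := by
        rw [hT]; exact Int.mul_ediv_cancel' hd3
      have hnext : (d : ℤ) ^ k ∣ Mw m v * Tm d m r x - Ww d m r v := by
        have h1 : (d : ℤ) * (d : ℤ) ^ k ∣ (d : ℤ) * (Mw m v * Tm d m r x - Ww d m r v) := by
          have h2 : (d : ℤ) * (Mw m v * Tm d m r x - Ww d m r v)
              = Mw m v * (m i * x - r i) - d * Ww d m r v := by rw [← hT']; ring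
          rw [h2, ← pow_succ']
          exact hx
        exact (mul_dvd_mul_iff_left hd0.ne').1 h1
      have := ih hv hnext
      show (x % d).toNat :: wd d m r k (Tm d m r x) = i :: v
      rw [hmod, this]

/-- splitting a class mod `Q` into classes mod `Q R` -/
theorem nw_split (S : Set ℤ) {σ : ℤ} (hσ : σ = 1 ∨ σ = -1) {a b : ℝ} (hab : a ≤ b) {Q R : ℕ}
    (hQ : 0 < Q) (hR : 0 < R) (c : ℤ) :
    nw S σ a b Q c = ∑ j ∈ range R, nw S σ a b (Q * R) (c + Q * j) := by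
  classical
  have hQR : 0 < Q * R := Nat.mul_pos hQ hR
  have hQz : (0 : ℤ) < Q := by exact_mod_cast hQ
  have hRz : (0 : ℤ) < R := by exact_mod_cast hR
  set A : Finset ℤ := (nw_set_fin S hσ hab hQ c).toFinset with hA
  have hAmem : ∀ x : ℤ, x ∈ A ↔ x ∈ S ∧ a ≤ ((σ * x : ℤ) : ℝ) ∧ ((σ * x : ℤ) : ℝ) < b ∧
      (Q : ℤ) ∣ x - c := by
    intro x; rw [hA, Set.Finite.mem_toFinset]; rfl
  have h0 : nw S σ a b Q c = (A.card : ℝ) := by
    unfold nw
    rw [hA, ← Set.ncard_eq_toFinset_card _ (nw_set_fin S hσ hab hQ c)]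
  have hmaps : ∀ x ∈ A, (((x - c) / Q) % R).toNat ∈ range R := by
    intro x _
    have h1 := Int.emod_lt_of_pos ((x - c) / Q) hRz
    have h2 := Int.emod_nonneg ((x - c) / Q) hRz.ne'
    rw [mem_range]
    omega
  have h1 : A.card = ∑ j ∈ range R, (A.filter fun x => (((x - c) / Q) % R).toNat = j).card :=
    Finset.card_eq_sum_card_fiberwise hmaps
  rw [h0, h1, Nat.cast_sum]
  apply Finset.sum_congr rfl
  intro j hj
  rw [mem_range] at hj
  unfold nw
  rw [← Set.ncard_coe_finset]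
  congr 1
  congr 1
  ext x
  rw [Finset.mem_coe, mem_filter, hAmem]
  simp only [Set.mem_ofPred_eq]
  have key : (Q : ℤ) ∣ x - c → ((((x - c) / Q) % R).toNat = j ↔
      ((Q * R : ℕ) : ℤ) ∣ x - (c + Q * j)) := by
    rintro ⟨t, ht⟩
    have e1 : (x - c) / Q = t := by rw [ht]; exact Int.mul_ediv_cancel_left t hQz.ne'
    rw [e1]
    have e2 : x - (c + Q * j) = Q * (t - j) := by linear_combination ht
    rw [e2, Nat.cast_mul, mul_dvd_mul_iff_left hQz.ne']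
    have h2 := Int.emod_nonneg t hRz.ne'
    have h3 : (j : ℤ) % R = j := Int.emod_eq_of_lt (by omega) (by exact_mod_cast hj)
    constructor
    · intro h4
      have h5 : t % R = j := by rw [← h4]; exact (Int.toNat_of_nonneg h2).symm
      rw [← h5]
      exact Int.dvd_self_sub_emod
    · intro h4
      have h5 : (j : ℤ) % R = t % R := Int.ModEq.eq (Int.modEq_iff_dvd.2 h4)
      rw [← h5, h3]
      simp
  have hdv : ((Q * R : ℕ) : ℤ) ∣ x - (c + Q * j) → (Q : ℤ) ∣ x - c := by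
    intro h4
    have h5 : (Q : ℤ) ∣ x - (c + Q * j) :=
      (Dvd.intro (R : ℤ) (by push_cast; rfl) : (Q : ℤ) ∣ ((Q * R : ℕ) : ℤ)).trans h4
    have h6 : x - c = (x - (c + Q * j)) + Q * j := by ring
    rw [h6]
    exact dvd_add h5 (dvd_mul_right _ _)
  constructor
  · rintro ⟨⟨hs, h1, h2, h3⟩, h4⟩
    exact ⟨hs, h1, h2, (key h3).1 h4⟩
  · rintro ⟨hs, h1, h2, h4⟩
    exact ⟨⟨hs, h1, h2, hdv h4⟩, (key (hdv h4)).2 h4⟩

end Pool.Agent.H319R3.DN
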