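import Pool.Agent.H319R3.DN.Defs

/-! T8: a net of combinations, the steps are not commensurable, the drift is negative. -/

set_option autoImplicit false

namespace Pool.Agent.H319R3.DN
open Pool.Agent.H319R3.GC Finset Filter Topology

variable {d : ℕ} {m r : ℕ → ℤ}

theorem net {α β : ℝ} (hirr : Irrational (α / β)) {δ A : ℝ} (hδ : 0 < δ) :
    ∃ (N : ℕ) (u₀ : ℝ), ∀ u : ℝ, |u - u₀| ≤ A → ∃ p q : ℕ, Even p ∧ Even q ∧ p + q ≤ N ∧
      |u - (p * α + q * β)| < δ := by
  have hβ : β ≠ 0 := by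
    rintro rfl
    apply hirr
    exact ⟨0, by simp⟩
  have hβ' : 0 < |β| := abs_pos.mpr hβ
  obtain ⟨n, hn⟩ := exists_nat_gt (2 * |β| / δ)
  obtain ⟨j, k, hk, -, hjk⟩ := Real.exists_int_int_abs_mul_sub_le (α / β) (Nat.succ_pos n)
  obtain ⟨th, hth⟩ : ∃ th : ℝ, th = k * α - j * β := ⟨_, rfl⟩
  have h1 : th = β * (k * (α / β) - j) := by
    rw [hth]; field_simp
  have hne : th ≠ 0 := by
    intro h0
    rw [h1] at h0
    rcases mul_eq_zero.mp h0 with h | h
    · exact hβ h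
    · apply hirr
      refine ⟨(j : ℚ) / k, ?_⟩
      have hk' : (k : ℝ) ≠ 0 := by exact_mod_cast hk.ne'
      push_cast
      rw [div_eq_iff hk']
      linarith
  have hth0 : 0 < |th| := abs_pos.mpr hne
  have hthδ : 2 * |th| < δ := by
    rw [h1, abs_mul]
    have hn' : (0 : ℝ) < (n.succ : ℝ) + 1 := by positivity
    have h2 : |β| * |(k : ℝ) * (α / β) - j| ≤ |β| * (1 / ((n.succ : ℝ) + 1)) :=
      mul_le_mul_of_nonneg_left hjk hβ'.le
    have h3 : 2 * |β| < δ * n := by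
      rw [div_lt_iff₀ hδ] at hn
      linarith
    have h4 : 2 * (|β| * (1 / ((n.succ : ℝ) + 1))) < δ := by
      rw [mul_one_div, ← mul_div_assoc, div_lt_iff₀ hn']
      push_cast
      nlinarith
    linarith
  obtain ⟨N0, hN0⟩ := exists_nat_ge ((|A| + 1) / |th|)
  rw [div_le_iff₀ hth0] at hN0
  have hAle := le_abs_self A
  refine ⟨(4 * (N0 * |k| + N0 * |j|)).toNat, 2 * ((N0 * |k| : ℤ) * α + (N0 * |j| : ℤ) * β) + N0 * th,
    fun u hu => ?_⟩
  obtain ⟨v, hv⟩ : ∃ v : ℝ, v = (u - 2 * ((N0 * |k| : ℤ) * α + (N0 * |j| : ℤ) * β)) / (2 * th) :=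
    ⟨_, rfl⟩
  have hv' : u = 2 * ((N0 * |k| : ℤ) * α + (N0 * |j| : ℤ) * β) + v * (2 * th) := by
    rw [hv]; field_simp; ring
  have hv2 : |v - N0 / 2| * (2 * |th|) ≤ A := by
    have : u - (2 * ((N0 * |k| : ℤ) * α + (N0 * |j| : ℤ) * β) + N0 * th) = (v - N0 / 2) * (2 * th) := by
      rw [hv']; ring
    rw [this, abs_mul, abs_mul] at hu
    simpa using hu
  have hv3 : |v - N0 / 2| ≤ N0 / 2 := by
    by_contra hcon
    push Not at hcon
    have : (N0 : ℝ) / 2 * (2 * |th|) < |v - N0 / 2| * (2 * |th|) :=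
      mul_lt_mul_of_pos_right hcon (by positivity)
    nlinarith
  rw [abs_le] at hv3
  have hv0 : 0 ≤ v := by linarith [hv3.1]
  have hvN : v ≤ N0 := by linarith [hv3.2]
  obtain ⟨s, hs⟩ : ∃ s : ℕ, s = ⌊v⌋₊ := ⟨_, rfl⟩
  have hs1 : (s : ℝ) ≤ v := by rw [hs]; exact Nat.floor_le hv0
  have hs2 : v < s + 1 := by rw [hs]; exact Nat.lt_floor_add_one v
  have hsN : s ≤ N0 := by
    have : (s : ℝ) ≤ N0 := hs1.trans hvN
    exact_mod_cast this
  have hsN' : (s : ℤ) ≤ N0 := by exact_mod_cast hsN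
  have hs0 : (0 : ℤ) ≤ s := Int.natCast_nonneg s
  have e1 : (s : ℤ) * |k| ≤ N0 * |k| := mul_le_mul_of_nonneg_right hsN' (abs_nonneg _)
  have e2 : (s : ℤ) * |j| ≤ N0 * |j| := mul_le_mul_of_nonneg_right hsN' (abs_nonneg _)
  have f1 : |(s : ℤ) * k| = s * |k| := by rw [abs_mul, abs_of_nonneg hs0]
  have f2 : |(s : ℤ) * j| = s * |j| := by rw [abs_mul, abs_of_nonneg hs0]
  have g1 := abs_le.mp f1.le
  have g2 := abs_le.mp f2.le
  have hp : (0 : ℤ) ≤ N0 * |k| + s * k := by linarith [g1.1]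
  have hq : (0 : ℤ) ≤ N0 * |j| - s * j := by linarith [g2.2]
  obtain ⟨p, hp'⟩ := Int.eq_ofNat_of_zero_le hp
  obtain ⟨q, hq'⟩ := Int.eq_ofNat_of_zero_le hq
  have hpR : ((p : ℤ) : ℝ) = N0 * |(k : ℝ)| + s * k := by
    rw [← hp']; push_cast; ring
  have hqR : ((q : ℤ) : ℝ) = N0 * |(j : ℝ)| - s * j := by
    rw [← hq']; push_cast; ring
  refine ⟨2 * p, 2 * q, even_two_mul p, even_two_mul q, ?_, ?_⟩
  · have : ((2 * p + 2 * q : ℕ) : ℤ) ≤ 4 * (N0 * |k| + N0 * |j|) := by
      push_cast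
      linarith [g1.2, g2.1]
    omega
  · have hd : u - (((2 * p : ℕ) : ℝ) * α + ((2 * q : ℕ) : ℝ) * β) = (v - s) * (2 * th) := by
      have hpR' : (p : ℝ) = N0 * |(k : ℝ)| + s * k := by exact_mod_cast hpR
      have hqR' : (q : ℝ) = N0 * |(j : ℝ)| - s * j := by exact_mod_cast hqR
      push_cast
      rw [hpR', hqR', hv', hth]
      push_cast
      ring
    rw [hd, abs_mul, abs_mul]
    have h5 : |v - s| < 1 := by
      rw [abs_lt]; constructor <;> linarith
    have h6 : |v - (s : ℝ)| * (|2| * |th|) ≤ 1 * (|2| * |th|) :=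
      mul_le_mul_of_nonneg_right h5.le (by positivity)
    rw [abs_of_pos (by norm_num : (0 : ℝ) < 2)] at h6 ⊢
    linarith

theorem adm_cop (h : Adm d m r) {i : ℕ} (hi : i < d) : Nat.Coprime (m i).natAbs d := by
  have := h.cop i hi
  rw [Int.isCoprime_iff_nat_coprime] at this
  simpa using this

theorem adm_pos (h : Adm d m r) {i : ℕ} (hi : i < d) : 0 < (m i).natAbs := by
  rcases Nat.eq_zero_or_pos (m i).natAbs with h0 | h0
  · have := adm_cop h hi
    rw [h0, Nat.coprime_zero_left] at this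
    have := h.two_le
    omega
  · exact h0

theorem no_rel {a b d p q : ℕ} (ha : 0 < a) (hb : 0 < b) (had : Nat.Coprime a d)
    (hbd : Nat.Coprime b d) (hd : 2 ≤ d) (hq : 0 < q) (hab : a ≠ b)
    (h : a ^ q * d ^ p = b ^ p * d ^ q) : False := by
  rcases lt_trichotomy p q with hpq | hpq | hpq
  · obtain ⟨e, rfl⟩ := Nat.exists_eq_add_of_lt hpq
    have hdp : 0 < d ^ p := by positivity
    have h2 : a ^ (p + e + 1) = b ^ p * d ^ (e + 1) := by
      have : a ^ (p + e + 1) * d ^ p = (b ^ p * d ^ (e + 1)) * d ^ p := by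
        rw [h]; ring
      exact Nat.eq_of_mul_eq_mul_right hdp this
    have h3 : d ∣ a ^ (p + e + 1) := by
      rw [h2]
      exact Dvd.dvd.mul_left (dvd_pow_self d (by omega)) _
    have h4 := Nat.Coprime.eq_one_of_dvd ((Nat.Coprime.pow_left (p + e + 1) had).symm) h3
    omega
  · subst hpq
    have hdp : 0 < d ^ p := by positivity
    have h2 : a ^ p = b ^ p := Nat.eq_of_mul_eq_mul_right hdp h
    exact hab (Nat.pow_left_injective (by omega) h2)
  · obtain ⟨e, rfl⟩ := Nat.exists_eq_add_of_lt hpq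
    have hdp : 0 < d ^ q := by positivity
    have h2 : a ^ q * d ^ (e + 1) = b ^ (q + e + 1) := by
      have : (a ^ q * d ^ (e + 1)) * d ^ q = b ^ (q + e + 1) * d ^ q := by
        rw [← h]; ring
      exact Nat.eq_of_mul_eq_mul_right hdp this
    have h3 : d ∣ b ^ (q + e + 1) := by
      rw [← h2]
      exact Dvd.dvd.mul_left (dvd_pow_self d (by omega)) _
    have h4 := Nat.Coprime.eq_one_of_dvd ((Nat.Coprime.pow_left (q + e + 1) hbd).symm) h3
    omega

theorem no_rel' {a b d p q : ℕ} (had : Nat.Coprime a d)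
    (hbd : Nat.Coprime b d) (hd : 2 ≤ d) (hq : 0 < q)
    (h : a ^ q * b ^ p = d ^ (q + p)) : False := by
  have h3 : d ∣ a ^ q * b ^ p := by
    rw [h]; exact dvd_pow_self d (by omega)
  have hc : Nat.Coprime (a ^ q * b ^ p) d :=
    Nat.Coprime.mul_left (Nat.Coprime.pow_left q had) (Nat.Coprime.pow_left p hbd)
  have h4 := Nat.Coprime.eq_one_of_dvd hc.symm h3
  omega

theorem irr (h : Adm d m r) {i j : ℕ} (hi : i < d) (hj : j < d)
    (hij : (m i).natAbs ≠ (m j).natAbs) :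
    Irrational (Real.log (|(m i : ℝ)| / d) / Real.log (|(m j : ℝ)| / d)) := by
  have hd2 := h.two_le
  have hai := adm_pos h hi
  have haj := adm_pos h hj
  have hci := adm_cop h hi
  have hcj := adm_cop h hj
  have e1 : |(m i : ℝ)| = ((m i).natAbs : ℝ) := by
    rw [Nat.cast_natAbs]; push_cast; rfl
  have e2 : |(m j : ℝ)| = ((m j).natAbs : ℝ) := by
    rw [Nat.cast_natAbs]; push_cast; rfl
  rw [e1, e2]
  generalize (m i).natAbs = a at *
  generalize (m j).natAbs = b at *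
  have ha' : (0 : ℝ) < a := by exact_mod_cast hai
  have hb' : (0 : ℝ) < b := by exact_mod_cast haj
  have hd' : (0 : ℝ) < d := by exact_mod_cast (by omega : 0 < d)
  have hbd : Real.log ((b : ℝ) / d) ≠ 0 := by
    rw [Real.log_div hb'.ne' hd'.ne', sub_ne_zero]
    intro heq
    have : (b : ℝ) = d := Real.log_injOn_pos (Set.mem_Ioi.mpr hb') (Set.mem_Ioi.mpr hd') heq
    have h2 : b = d := by exact_mod_cast this
    rw [h2, Nat.coprime_self] at hcj
    omega
  rintro ⟨t, ht⟩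
  have hden : (0 : ℝ) < (t.den : ℝ) := by exact_mod_cast t.den_pos
  have h1 : (t.den : ℝ) * Real.log ((a : ℝ) / d) = (t.num : ℝ) * Real.log ((b : ℝ) / d) := by
    have : (t : ℝ) = (t.num : ℝ) / (t.den : ℝ) := by
      exact_mod_cast (Rat.num_div_den t).symm
    rw [this] at ht
    field_simp at ht
    linarith
  rw [Real.log_div ha'.ne' hd'.ne', Real.log_div hb'.ne' hd'.ne'] at h1
  rcases Int.le_total 0 t.num with hp | hp
  · obtain ⟨p, hp'⟩ := Int.eq_ofNat_of_zero_le hp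
    have hpR : (t.num : ℝ) = (p : ℝ) := by rw [hp']; simp
    rw [hpR] at h1
    have h2 : Real.log ((a : ℝ) ^ t.den * (d : ℝ) ^ p) = Real.log ((b : ℝ) ^ p * (d : ℝ) ^ t.den) := by
      rw [Real.log_mul (by positivity) (by positivity), Real.log_mul (by positivity) (by positivity),
        Real.log_pow, Real.log_pow, Real.log_pow, Real.log_pow]
      linarith
    have h3 : (a : ℝ) ^ t.den * (d : ℝ) ^ p = (b : ℝ) ^ p * (d : ℝ) ^ t.den :=
      Real.log_injOn_pos (Set.mem_Ioi.mpr (by positivity)) (Set.mem_Ioi.mpr (by positivity)) h2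
    have h4 : a ^ t.den * d ^ p = b ^ p * d ^ t.den := by exact_mod_cast h3
    exact no_rel hai haj hci hcj hd2 t.den_pos hij h4
  · obtain ⟨p, hp'⟩ := Int.eq_ofNat_of_zero_le (neg_nonneg.mpr hp)
    have hpR : (t.num : ℝ) = -(p : ℝ) := by
      have : t.num = -(p : ℤ) := by rw [← hp']; ring
      rw [this]; push_cast; rfl
    rw [hpR] at h1
    have h2 : Real.log ((a : ℝ) ^ t.den * (b : ℝ) ^ p) = Real.log ((d : ℝ) ^ (t.den + p)) := by
      rw [Real.log_mul (by positivity) (by positivity),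
        Real.log_pow, Real.log_pow, Real.log_pow]
      push_cast
      linarith
    have h3 : (a : ℝ) ^ t.den * (b : ℝ) ^ p = (d : ℝ) ^ (t.den + p) :=
      Real.log_injOn_pos (Set.mem_Ioi.mpr (by positivity)) (Set.mem_Ioi.mpr (by positivity)) h2
    have h4 : a ^ t.den * b ^ p = d ^ (t.den + p) := by exact_mod_cast h3
    exact no_rel' hci hcj hd2 t.den_pos h4

theorem drift (h : Adm d m r) : ∑ i ∈ range d, Real.log (|(m i : ℝ)| / d) < 0 := by
  have hd2 := h.two_le
  have hd' : (0 : ℝ) < d := by exact_mod_cast (by omega : 0 < d)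
  have hpos : ∀ i ∈ range d, |(m i : ℝ)| / d ≠ 0 := by
    intro i hi
    have := adm_pos h (mem_range.mp hi)
    have h0 : m i ≠ 0 := Int.natAbs_pos.mp this
    have h1 : (m i : ℝ) ≠ 0 := by exact_mod_cast h0
    have h2 : 0 < |(m i : ℝ)| := abs_pos.mpr h1
    positivity
  rw [← Real.log_prod hpos]
  have hP : ∏ i ∈ range d, (|(m i : ℝ)| / d) = (PP d m : ℝ) / (d : ℝ) ^ d := by
    rw [prod_div_distrib, prod_const, card_range]
    congr 1
    unfold PP
    push_cast
    refine prod_congr rfl fun i _ => ?_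
    rw [Nat.cast_natAbs]; push_cast; rfl
  rw [hP]
  have hb := h.big
  have hc := h.contr
  have h1 : (0 : ℝ) < PP d m := by exact_mod_cast (by omega : 0 < PP d m)
  have h2 : (PP d m : ℝ) < (d : ℝ) ^ d := by exact_mod_cast hc
  apply Real.log_neg
  · positivity
  · rw [div_lt_one (by positivity)]
    exact h2

end Pool.Agent.H319R3.DN
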