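import Pool.Agent.H319R3.DN.Defs

/-! T9: propagation of near-extremal values. -/

set_option autoImplicit false

namespace Pool.Agent.H319R3.DN
open Finset Filter Topology

variable {d : ℕ}

theorem propagate (hd : 1 ≤ d) {ξ s : ℕ → ℝ} (hs : ∀ i < d, s i = 1 ∨ s i = -1) {F : ℝ → ℝ}
    {C t₀ M : ℝ} (hM : ∀ δ, 0 < δ → ∀ᶠ t in atTop, |F t| < M + δ)
    (hh : ∀ t, t₀ ≤ t → |F t - (∑ i ∈ range d, s i * F (t + ξ i)) / d| ≤ C / t ^ 2) :
    ∀ n : ℕ, ∀ ε : ℝ, 0 < ε → ∃ δ : ℝ, 0 < δ ∧ ∃ T : ℝ, ∀ t : ℝ, T ≤ t → ∀ τ : ℝ, τ = 1 ∨ τ = -1 →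
      M - δ < τ * F t → ∀ l : List ℕ, (∀ i ∈ l, i < d) → l.length ≤ n →
        M - ε < τ * ((l.map s).prod * F (t + (l.map ξ).sum)) := by
  intro n
  induction n with
  | zero =>
    intro ε hε
    refine ⟨ε, hε, 0, fun t _ τ _ hF l _ hlen => ?_⟩
    have hl : l = [] := List.length_eq_zero_iff.1 (by omega)
    subst hl
    simpa using hF
  | succ n ih =>
    intro ε hε
    obtain ⟨δ', hδ', T', h'⟩ := ih ε hε
    have hd0 : (1 : ℝ) ≤ d := by exact_mod_cast hd
    obtain ⟨δ, hδdef⟩ : ∃ δ : ℝ, δ = min (δ' / (3 * d)) ε := ⟨_, rfl⟩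
    have hδ : 0 < δ := by rw [hδdef]; positivity
    have hδε : δ ≤ ε := by rw [hδdef]; exact min_le_right _ _
    have hδ3 : 3 * d * δ ≤ δ' := by
      have h1 : δ ≤ δ' / (3 * d) := by rw [hδdef]; exact min_le_left _ _
      rw [le_div_iff₀ (by positivity)] at h1
      linarith
    obtain ⟨T1, hT1⟩ := eventually_atTop.1 (hM δ hδ)
    obtain ⟨X, hX⟩ : ∃ X : ℝ, X = ∑ i ∈ range d, |ξ i| := ⟨_, rfl⟩
    have hXi : ∀ i < d, -X ≤ ξ i := by
      intro i hi
      have h1 : |ξ i| ≤ X := by
        rw [hX]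
        exact Finset.single_le_sum (f := fun i => |ξ i|) (fun _ _ => abs_nonneg _)
          (Finset.mem_range.2 hi)
      linarith [neg_abs_le (ξ i)]
    refine ⟨δ, hδ, max (max (T' + X) (T1 + X)) (max t₀ (|C| / δ + 1)), fun t ht τ hτ hF l hl hlen => ?_⟩
    have e1 : T' + X ≤ t := (le_max_left _ _).trans ((le_max_left _ _).trans ht)
    have e2 : T1 + X ≤ t := (le_max_right _ _).trans ((le_max_left _ _).trans ht)
    have e3 : t₀ ≤ t := (le_max_left _ _).trans ((le_max_right _ _).trans ht)
    have e4 : |C| / δ + 1 ≤ t := (le_max_right _ _).trans ((le_max_right _ _).trans ht)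
    have hCδ : 0 ≤ |C| / δ := by positivity
    have ht1 : 1 ≤ t := by linarith
    have hCt : C / t ^ 2 ≤ δ := by
      rw [div_le_iff₀ (by positivity)]
      have h5 : |C| ≤ δ * t := by
        have : |C| / δ ≤ t := by linarith
        rw [div_le_iff₀ hδ] at this
        linarith
      have h6 : t ≤ t ^ 2 := by nlinarith
      have h7 := le_abs_self C
      nlinarith
    match l, hl, hlen with
    | [], _, _ =>
      simp only [List.map_nil, List.prod_nil, List.sum_nil, add_zero, one_mul]
      linarith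
    | i :: l', hl, hlen =>
      have hi : i < d := hl i (List.mem_cons_self ..)
      have hh1 := hh t e3
      -- terms
      have hterm : ∀ j ∈ range d, τ * (s j * F (t + ξ j)) ≤ M + δ := by
        intro j hj
        have hj' := Finset.mem_range.1 hj
        have h1 := hT1 (t + ξ j) (by linarith [hXi j hj'])
        have h2 : τ * (s j * F (t + ξ j)) ≤ |F (t + ξ j)| := by
          have h3 := le_abs_self (F (t + ξ j))
          have h4 := neg_abs_le (F (t + ξ j))
          rcases hτ with rfl | rfl <;> rcases hs j hj' with h | h <;> rw [h] <;> linarith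
        linarith
      have hsum : τ * ∑ j ∈ range d, s j * F (t + ξ j) ≤
          τ * (s i * F (t + ξ i)) + (d - 1) * (M + δ) := by
        rw [Finset.mul_sum, ← Finset.add_sum_erase _ _ (Finset.mem_range.2 hi)]
        have h1 := Finset.sum_le_card_nsmul ((range d).erase i)
          (fun j => τ * (s j * F (t + ξ j))) (M + δ)
          (fun j hj => hterm j (Finset.mem_of_mem_erase hj))
        rw [Finset.card_erase_of_mem (Finset.mem_range.2 hi), Finset.card_range, nsmul_eq_mul,
          Nat.cast_sub hd] at h1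
        push_cast at h1
        linarith
      have hlow : (d : ℝ) * (M - 2 * δ) < τ * ∑ j ∈ range d, s j * F (t + ξ j) := by
        rw [abs_le] at hh1
        have h1 : M - 2 * δ < τ * ((∑ j ∈ range d, s j * F (t + ξ j)) / d) := by
          rcases hτ with rfl | rfl <;> linarith [hh1.1, hh1.2]
        have h2 : τ * ∑ j ∈ range d, s j * F (t + ξ j) =
            d * (τ * ((∑ j ∈ range d, s j * F (t + ξ j)) / d)) := by
          field_simp
        rw [h2]
        exact mul_lt_mul_of_pos_left h1 (by linarith)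
      have hstep : M - δ' < (τ * s i) * F (t + ξ i) := by nlinarith
      have hτ' : τ * s i = 1 ∨ τ * s i = -1 := by
        rcases hτ with rfl | rfl <;> rcases hs i hi with h | h <;> rw [h] <;> norm_num
      have h8 := h' (t + ξ i) (by linarith [hXi i hi]) (τ * s i) hτ' hstep l'
        (fun j hj => hl j (List.mem_cons_of_mem _ hj)) (by simpa using hlen)
      simp only [List.map_cons, List.prod_cons, List.sum_cons]
      have h9 : t + (ξ i + (l'.map ξ).sum) = t + ξ i + (l'.map ξ).sum := by ring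
      rw [h9]
      calc M - ε < τ * s i * ((l'.map s).prod * F (t + ξ i + (l'.map ξ).sum)) := h8
        _ = _ := by ring

end Pool.Agent.H319R3.DN
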