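import Mathlib
import Pool.Agent.H319R3.DN.T8
import Pool.Agent.H319R3.DN.T9

/-!
Signed harmonic relation with a negative sign: the limit is zero.
-/

set_option autoImplicit false

namespace Pool.Agent.H319R3.DN
open Pool.Agent.H319R3.GC Finset Filter Topology

variable {d : ℕ} {m r : ℕ → ℤ}

/-- value of a list with even numbers of two letters -/
private theorem even_list {ξ s : ℕ → ℝ} (hs : ∀ i < d, s i = 1 ∨ s i = -1) {i j : ℕ} (hi : i < d)
    (hj : j < d) {p q : ℕ} (hp : Even p) (hq : Even q) :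
    ((List.replicate p i ++ List.replicate q j).map s).prod = 1 ∧
    ((List.replicate p i ++ List.replicate q j).map ξ).sum = p * ξ i + q * ξ j ∧
    (∀ k ∈ List.replicate p i ++ List.replicate q j, k < d) ∧
    (List.replicate p i ++ List.replicate q j).length = p + q := by
  have h1 : ∀ k < d, ∀ p : ℕ, Even p → s k ^ p = 1 := by
    intro k hk p hp
    rcases hs k hk with h | h
    · rw [h, one_pow]
    · rw [h, hp.neg_one_pow]
  refine ⟨?_, ?_, ?_, ?_⟩
  · simp only [List.map_append, List.map_replicate, List.prod_append, List.prod_replicate]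
    rw [h1 i hi p hp, h1 j hj q hq, one_mul]
  · simp only [List.map_append, List.map_replicate, List.sum_append, List.sum_replicate,
      nsmul_eq_mul]
  · intro k hk
    rcases List.mem_append.1 hk with h | h
    · rw [(List.mem_replicate.1 h).2]; exact hi
    · rw [(List.mem_replicate.1 h).2]; exact hj
  · simp

theorem signed_limit (hd : 2 ≤ d) {ξ s : ℕ → ℝ} (hs : ∀ i < d, s i = 1 ∨ s i = -1) {F : ℝ → ℝ}
    {C t₀ L K : ℝ} (hb : ∀ t, t₀ ≤ t → |F t| ≤ K)
    (hL : ∀ t u, t₀ ≤ t → 0 ≤ u → u ≤ 1 → |F (t + u) - F t| ≤ L * (u + Real.exp (-t)))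
    (hh : ∀ t, t₀ ≤ t → |F t - (∑ i ∈ range d, s i * F (t + ξ i)) / d| ≤ C / t ^ 2)
    {i j l : ℕ} (hi : i < d) (hj : j < d) (hl : l < d) (hirr : Irrational (ξ i / ξ j))
    (hneg : s l = -1) : Tendsto F atTop (𝓝 0) := by
  have hbd : IsBoundedUnder (· ≤ ·) atTop (fun t => |F t|) :=
    ⟨K, by
      rw [eventually_map]
      exact (eventually_ge_atTop t₀).mono fun t ht => hb t ht⟩
  have hcb : IsCoboundedUnder (· ≤ ·) atTop (fun t => |F t|) :=
    IsBoundedUnder.isCoboundedUnder_le ⟨0, by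
      rw [eventually_map]
      exact Eventually.of_forall fun t => abs_nonneg _⟩
  set M := limsup (fun t => |F t|) atTop with hM
  have hup : ∀ δ, 0 < δ → ∀ᶠ t in atTop, |F t| < M + δ := fun δ hδ =>
    eventually_lt_of_limsup_lt (by rw [← hM]; linarith) hbd
  have hfr : ∀ δ, 0 < δ → ∃ᶠ t in atTop, M - δ < |F t| := fun δ hδ =>
    frequently_lt_of_lt_limsup hcb (by rw [← hM]; linarith)
  rcases le_or_gt M 0 with hM0 | hM0
  · rw [Metric.tendsto_atTop']
    intro ε hε
    obtain ⟨N, hN⟩ := eventually_atTop.1 (hup ε hε)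
    refine ⟨N, fun t ht => ?_⟩
    rw [Real.dist_eq, sub_zero]
    have := hN t ht.le
    linarith
  exfalso
  set L' : ℝ := |L| + 1 with hL'
  have hL'0 : 0 < L' := by positivity
  have hLL' : L ≤ L' := by rw [hL']; linarith [le_abs_self L]
  set δ₀ : ℝ := min (1 / 2) (M / (8 * L')) with hδ₀
  have hδ₀0 : 0 < δ₀ := by rw [hδ₀]; positivity
  have hδ₁ : 2 * δ₀ ≤ 1 := by
    have := min_le_left (1 / 2 : ℝ) (M / (8 * L'))
    rw [← hδ₀] at this; linarith
  have hδ₂ : L' * (2 * δ₀) ≤ M / 4 := by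
    have h1 := min_le_right (1 / 2 : ℝ) (M / (8 * L'))
    rw [← hδ₀] at h1
    calc L' * (2 * δ₀) ≤ L' * (2 * (M / (8 * L'))) := by gcongr
      _ = M / 4 := by field_simp; norm_num
  obtain ⟨N, u₀, hnet⟩ := net hirr (A := |ξ l| + 1) hδ₀0
  obtain ⟨δ, hδ, T, hT⟩ := propagate (by omega) hs hup hh (N + 1) (M / 4) (by positivity)
  -- a large time
  have hexp : ∀ᶠ a : ℝ in atTop, Real.exp (-a) < M / (4 * L') :=
    (Real.tendsto_exp_neg_atTop_nhds_zero).eventually (gt_mem_nhds (by positivity))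
  have hev : ∀ᶠ t : ℝ in atTop, T ≤ t ∧ t₀ ≤ t + (u₀ - δ₀) ∧
      Real.exp (-(t + (u₀ - δ₀))) < M / (4 * L') := by
    have h1 : Tendsto (fun t : ℝ => t + (u₀ - δ₀)) atTop atTop :=
      tendsto_atTop_add_const_right _ _ tendsto_id
    exact (eventually_ge_atTop T).and ((h1.eventually (eventually_ge_atTop t₀)).and
      (h1.eventually hexp))
  obtain ⟨t, htM, htT, ht₀, htexp⟩ := ((hfr δ hδ).and_eventually hev).exists
  obtain ⟨τ, hτ, hτF⟩ : ∃ τ : ℝ, (τ = 1 ∨ τ = -1) ∧ M - δ < τ * F t := by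
    rcases le_total 0 (F t) with h | h
    · exact ⟨1, Or.inl rfl, by rwa [one_mul, ← abs_of_nonneg h]⟩
    · exact ⟨-1, Or.inr rfl, by rwa [neg_one_mul, ← abs_of_nonpos h]⟩
  obtain ⟨p, q, hp, hq, hpq, hv⟩ := hnet u₀ (by rw [sub_self, abs_zero]; positivity)
  obtain ⟨p', q', hp', hq', hpq', hv'⟩ := hnet (u₀ - ξ l) (by
    rw [show u₀ - ξ l - u₀ = -ξ l by ring, abs_neg]; linarith)
  obtain ⟨e1, e2, e3, e4⟩ := even_list (ξ := ξ) hs hi hj hp hq
  obtain ⟨f1, f2, f3, f4⟩ := even_list (ξ := ξ) hs hi hj hp' hq'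
  have g1 := hT t htT τ hτ hτF (List.replicate p i ++ List.replicate q j) e3 (by omega)
  have g2 := hT t htT τ hτ hτF (l :: (List.replicate p' i ++ List.replicate q' j)) (by
    intro k hk
    rcases List.mem_cons.1 hk with rfl | h
    · exact hl
    · exact f3 k h) (by rw [List.length_cons]; omega)
  rw [e1, e2, one_mul] at g1
  rw [List.map_cons, List.map_cons, List.prod_cons, List.sum_cons, f1, f2, hneg] at g2
  set v1 : ℝ := p * ξ i + q * ξ j with hv1
  set v2 : ℝ := ξ l + (p' * ξ i + q' * ξ j) with hv2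
  have k1 : |u₀ - v1| < δ₀ := hv
  have k2 : |u₀ - v2| < δ₀ := by
    rw [show u₀ - v2 = u₀ - ξ l - (p' * ξ i + q' * ξ j) by rw [hv2]; ring]
    exact hv'
  -- close times have close values
  have hclose : ∀ x y : ℝ, |u₀ - x| < δ₀ → |u₀ - y| < δ₀ → x ≤ y →
      |F (t + y) - F (t + x)| ≤ M / 2 := by
    intro x y hx hy hxy
    rw [abs_lt] at hx hy
    have h1 := hL (t + x) (y - x) (by linarith) (by linarith) (by linarith)
    rw [show t + x + (y - x) = t + y by ring] at h1
    have h2 : Real.exp (-(t + x)) ≤ Real.exp (-(t + (u₀ - δ₀))) :=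
      Real.exp_le_exp.2 (by linarith)
    have h3 : L' * Real.exp (-(t + x)) ≤ M / 4 := by
      calc L' * Real.exp (-(t + x)) ≤ L' * (M / (4 * L')) := by gcongr; linarith
        _ = M / 4 := by field_simp
    have h4 : 0 ≤ y - x + Real.exp (-(t + x)) := by
      have := Real.exp_pos (-(t + x)); linarith
    calc |F (t + y) - F (t + x)| ≤ L * (y - x + Real.exp (-(t + x))) := h1
      _ ≤ L' * (y - x + Real.exp (-(t + x))) := by gcongr
      _ = L' * (y - x) + L' * Real.exp (-(t + x)) := by ring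
      _ ≤ L' * (2 * δ₀) + M / 4 := by gcongr; linarith
      _ ≤ M / 2 := by linarith
  have hfin : |F (t + v1) - F (t + v2)| ≤ M / 2 := by
    rcases le_total v1 v2 with h | h
    · rw [abs_sub_comm]; exact hclose v1 v2 k1 k2 h
    · exact hclose v2 v1 k2 k1 h
  have hdiff : 3 * M / 2 < τ * (F (t + v1) - F (t + v2)) := by
    have : τ * (-1 * 1 * F (t + v2)) = -(τ * F (t + v2)) := by ring
    rw [this] at g2
    rw [mul_sub]
    linarith
  have hle : τ * (F (t + v1) - F (t + v2)) ≤ |F (t + v1) - F (t + v2)| := by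
    rcases hτ with rfl | rfl
    · rw [one_mul]; exact le_abs_self _
    · rw [neg_one_mul]; exact neg_le_abs _
  linarith

end Pool.Agent.H319R3.DN
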