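import Pool.Agent.H319R3.DN.T8
import Pool.Agent.H319R3.DN.T9

/-! T11: bounded functions with an unsigned approximate harmonic relation with negative drift and
two incommensurable steps converge. -/

set_option autoImplicit false

namespace Pool.Agent.H319R3.DN
open MeasureTheory Finset Filter Topology

section T11
variable {d : ℕ} {ξ : ℕ → ℝ} {F : ℝ → ℝ} {L C t₀ K : ℝ}

/-- the conserved quantity -/
noncomputable def IIq (d : ℕ) (ξ : ℕ → ℝ) (F : ℝ → ℝ) (t : ℝ) : ℝ :=
  ∑ i ∈ range d, ∫ u in (t + ξ i)..t, F u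

theorem ii_intble (hF : Measurable F) (h0 : ∀ t, 0 ≤ F t) (h1 : ∀ t, F t ≤ K) (a b : ℝ) :
    IntervalIntegrable F volume a b := by
  rw [intervalIntegrable_iff]
  apply Measure.integrableOn_of_bounded (M := K)
  · simp [Set.uIoc, Real.volume_Ioc]
  · exact hF.aestronglyMeasurable
  · filter_upwards with x
    rw [Real.norm_eq_abs, abs_of_nonneg (h0 x)]; exact h1 x

theorem ii_diff (hF : Measurable F) (h0 : ∀ t, 0 ≤ F t) (h1 : ∀ t, F t ≤ K) (t t' : ℝ) :
    IIq d ξ F t' - IIq d ξ F t = ∫ u in t..t', (∑ i ∈ range d, (F u - F (u + ξ i))) := by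
  have hi := ii_intble hF h0 h1
  have i1 : ∀ x : ℝ, IntervalIntegrable (fun u => F (u + x)) volume t t' := fun x => by
    have := (hi (t + x) (t' + x)).comp_add_right x
    simpa using this
  rw [intervalIntegral.integral_finsetSum fun i _ => (hi t t').sub (i1 (ξ i))]
  unfold IIq
  rw [← Finset.sum_sub_distrib]
  refine Finset.sum_congr rfl fun i _ => ?_
  rw [intervalIntegral.integral_sub (hi t t') (i1 (ξ i)), intervalIntegral.integral_comp_add_right]
  have a1 := intervalIntegral.integral_add_adjacent_intervals (hi (t + ξ i) t) (hi t t')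
  have a2 := intervalIntegral.integral_add_adjacent_intervals (hi (t + ξ i) (t' + ξ i))
    (hi (t' + ξ i) t')
  linarith

theorem ii_cauchy (hd : 0 < d) (hF : Measurable F) (h0 : ∀ t, 0 ≤ F t) (h1 : ∀ t, F t ≤ K)
    (hh : ∀ t, t₀ ≤ t → |F t - (∑ i ∈ range d, F (t + ξ i)) / d| ≤ C / t ^ 2) (hC : 0 ≤ C)
    {t t' : ℝ} (ht0 : t₀ ≤ t) (ht : 0 < t) (htt : t ≤ t') :
    |IIq d ξ F t' - IIq d ξ F t| ≤ d * C / t := by
  rw [ii_diff hF h0 h1]
  have hd0 : (0 : ℝ) < d := by exact_mod_cast hd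
  have hbound : ∀ u ∈ Set.uIoc t t',
      ‖∑ i ∈ range d, (F u - F (u + ξ i))‖ ≤ d * C * u ^ (-2 : ℤ) := by
    intro u hu
    rw [Set.uIoc_of_le htt] at hu
    have hupos : 0 < u := lt_trans ht hu.1
    have := hh u (by linarith [hu.1])
    have e0 : ∑ i ∈ range d, (F u - F (u + ξ i)) =
        d * (F u - (∑ i ∈ range d, F (u + ξ i)) / d) := by
      rw [Finset.sum_sub_distrib, Finset.sum_const, Finset.card_range, nsmul_eq_mul]
      field_simp
    rw [Real.norm_eq_abs, e0, abs_mul, abs_of_pos hd0]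
    have e : u ^ (-2 : ℤ) = 1 / u ^ 2 := by
      rw [zpow_neg, one_div]; norm_cast
    rw [e]
    calc d * |F u - (∑ i ∈ range d, F (u + ξ i)) / d| ≤ d * (C / u ^ 2) :=
          mul_le_mul_of_nonneg_left this hd0.le
      _ = _ := by ring
  have h0not : (0 : ℝ) ∉ Set.uIcc t t' := by
    rw [Set.uIcc_of_le htt]
    intro h; linarith [h.1]
  have hint : IntervalIntegrable (fun u : ℝ => d * C * u ^ (-2 : ℤ)) volume t t' :=
    (intervalIntegral.intervalIntegrable_zpow (Or.inr h0not)).const_mul (d * C)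
  have := intervalIntegral.norm_integral_le_of_norm_le htt
    (Filter.Eventually.of_forall fun u hu => hbound u (by rw [Set.uIoc_of_le htt]; exact hu)) hint
  rw [Real.norm_eq_abs] at this
  refine this.trans ?_
  rw [intervalIntegral.integral_const_mul, integral_zpow (Or.inr ⟨by norm_num, h0not⟩)]
  have ht' : 0 < t' := lt_of_lt_of_le ht htt
  have e0 : (-2 : ℤ) + 1 = -1 := by norm_num
  have e1 : (t' ^ (-1 : ℤ) : ℝ) = 1 / t' := by rw [zpow_neg_one, one_div]
  have e2 : (t ^ (-1 : ℤ) : ℝ) = 1 / t := by rw [zpow_neg_one, one_div]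
  have p : 0 < 1 / t' := by positivity
  rw [e0, e1, e2]
  have e3 : d * C * ((1 / t' - 1 / t) / (((-2 : ℤ) : ℝ) + 1)) = d * C / t - d * C * (1 / t') := by
    push_cast; ring
  rw [e3]
  have := mul_nonneg (mul_nonneg hd0.le hC) p.le
  linarith

/-- at suitable large times the conserved quantity is close to `-(sum of the steps)` times the
upper limit -/
theorem ii_close (hd : 0 < d) (hF : Measurable F) (h0 : ∀ t, 0 ≤ F t) (h1 : ∀ t, F t ≤ K)
    (hL0 : 0 ≤ L)
    (hL : ∀ t u, t₀ ≤ t → 0 ≤ u → u ≤ 1 → |F (t + u) - F t| ≤ L * (u + Real.exp (-t)))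
    (hh : ∀ t, t₀ ≤ t → |F t - (∑ i ∈ range d, F (t + ξ i)) / d| ≤ C / t ^ 2) {M : ℝ}
    (hM : ∀ δ, 0 < δ → ∀ᶠ t in atTop, F t < M + δ)
    (hM' : ∀ δ, 0 < δ → ∃ᶠ t in atTop, M - δ < F t)
    {i j : ℕ} (hi : i < d) (hj : j < d) (hirr : Irrational (ξ i / ξ j))
    (ε : ℝ) (hε : 0 < ε) (T : ℝ) :
    ∃ t, T ≤ t ∧ |IIq d ξ F t - (-∑ i ∈ range d, ξ i) * M| ≤ ε := by
  -- a bound for the steps
  obtain ⟨A, hA0, hA⟩ : ∃ A : ℝ, 0 ≤ A ∧ ∀ i ∈ range d, |ξ i| ≤ A :=
    ⟨∑ i ∈ range d, |ξ i|, Finset.sum_nonneg fun _ _ => abs_nonneg _, fun i hi =>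
      Finset.single_le_sum (f := fun i => |ξ i|) (fun _ _ => abs_nonneg _) hi⟩
  -- accuracy
  obtain ⟨ε', hε', hεε⟩ : ∃ ε' : ℝ, 0 < ε' ∧ d * (ε' * A) ≤ ε := by
    refine ⟨ε / (d * A + 1), by positivity, ?_⟩
    have : (d : ℝ) * (ε / (d * A + 1) * A) = ε * (d * A / (d * A + 1)) := by ring
    rw [this]
    have h2 : (d : ℝ) * A / (d * A + 1) ≤ 1 := by
      rw [div_le_one (by positivity)]; linarith
    calc ε * (d * A / (d * A + 1)) ≤ ε * 1 := mul_le_mul_of_nonneg_left h2 hε.le
      _ = ε := mul_one _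
  obtain ⟨η, hη, hη1, hηε⟩ : ∃ η : ℝ, 0 < η ∧ η ≤ 1 ∧ L * η ≤ ε' / 4 := by
    refine ⟨min 1 (ε' / (4 * (L + 1))), by positivity, min_le_left _ _, ?_⟩
    have h2 : min 1 (ε' / (4 * (L + 1))) ≤ ε' / (4 * (L + 1)) := min_le_right _ _
    calc L * min 1 (ε' / (4 * (L + 1))) ≤ (L + 1) * (ε' / (4 * (L + 1))) := by
          apply mul_le_mul (by linarith) h2 (by positivity) (by positivity)
      _ = ε' / 4 := by field_simp
  obtain ⟨N, u₀, hn⟩ := net hirr (A := A) hη
  have hMabs : ∀ δ, 0 < δ → ∀ᶠ t in atTop, |F t| < M + δ := fun δ hδ => by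
    filter_upwards [hM δ hδ] with t ht
    rwa [abs_of_nonneg (h0 t)]
  obtain ⟨δ, hδ, T1, hprop⟩ := propagate (d := d) (s := fun _ => 1) hd (fun _ _ => Or.inl rfl) hMabs
    (C := C) (t₀ := t₀) (ξ := ξ) (by
      intro t ht
      simpa only [one_mul] using hh t ht) N (ε' / 4) (by positivity)
  obtain ⟨T2, hT2⟩ := eventually_atTop.1 (hM ε' hε')
  -- exponential term
  obtain ⟨T3, hT3⟩ : ∃ T3 : ℝ, ∀ t, T3 ≤ t → L * Real.exp (-t) ≤ ε' / 4 := by
    refine ⟨4 * L / ε', fun t ht => ?_⟩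
    have h2 : t + 1 ≤ Real.exp t := Real.add_one_le_exp t
    have ht0 : 0 ≤ t := le_trans (by positivity) ht
    rw [Real.exp_neg, ← div_eq_mul_inv, div_le_iff₀ (Real.exp_pos t)]
    rw [div_le_iff₀ hε'] at ht
    nlinarith
  have hfreq := (hM' δ hδ).and_eventually (eventually_ge_atTop
    (max (max (T - u₀) T1) (max (T2 + A - u₀) (max (T3 + A + 1 - u₀) (t₀ + A + 1 - u₀)))))
  obtain ⟨t, htF, htT⟩ := hfreq.exists
  have e1 : T - u₀ ≤ t := (le_max_left _ _).trans ((le_max_left _ _).trans htT)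
  have e2 : T1 ≤ t := (le_max_right _ _).trans ((le_max_left _ _).trans htT)
  have e3 : T2 + A - u₀ ≤ t := (le_max_left _ _).trans ((le_max_right _ _).trans htT)
  have e4 : T3 + A + 1 - u₀ ≤ t :=
    (le_max_left _ _).trans ((le_max_right _ _).trans ((le_max_right _ _).trans htT))
  have e5 : t₀ + A + 1 - u₀ ≤ t :=
    (le_max_right _ _).trans ((le_max_right _ _).trans ((le_max_right _ _).trans htT))
  refine ⟨t + u₀, by linarith, ?_⟩
  -- pointwise closeness on the window
  have hclose : ∀ w, |w - (t + u₀)| ≤ A → |F w - M| ≤ ε' := by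
    intro w hw
    have hw' := abs_le.1 hw
    obtain ⟨p, q, hp, hq, hpq, hlt⟩ := hn (w - t) (by
      rw [show w - t - u₀ = w - (t + u₀) by ring]; exact hw)
    obtain ⟨z, hz⟩ : ∃ z : ℝ, z = t + (p * ξ i + q * ξ j) := ⟨_, rfl⟩
    have hzF : M - ε' / 4 < F z := by
      have h2 := hprop t e2 1 (Or.inl rfl) (by rwa [one_mul])
        (List.replicate p i ++ List.replicate q j) (by
          intro k hk
          rw [List.mem_append] at hk
          rcases hk with hk | hk
          · rw [List.eq_of_mem_replicate hk]; exact hi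
          · rw [List.eq_of_mem_replicate hk]; exact hj) (by
          rw [List.length_append, List.length_replicate, List.length_replicate]; exact hpq)
      have h3 : (List.map (fun _ : ℕ => (1 : ℝ)) (List.replicate p i ++ List.replicate q j)).prod
          = 1 := by
        rw [List.map_const', List.prod_replicate, one_pow]
      have h4 : (List.map ξ (List.replicate p i ++ List.replicate q j)).sum
          = p * ξ i + q * ξ j := by
        rw [List.map_append, List.map_replicate, List.map_replicate, List.sum_append,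
          List.sum_replicate, List.sum_replicate, nsmul_eq_mul, nsmul_eq_mul]
      rw [h3, h4, one_mul, one_mul, ← hz] at h2
      exact h2
    have hd' : |w - z| < η := by
      rw [hz, show w - (t + (p * ξ i + q * ξ j)) = w - t - (p * ξ i + q * ξ j) by ring]
      exact hlt
    have hd'' := abs_lt.1 hd'
    have hFup : |F w - F z| ≤ ε' / 2 := by
      rcases le_total z w with h | h
      · have h2 := hL z (w - z) (by linarith) (by linarith) (by linarith)
        rw [show z + (w - z) = w by ring] at h2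
        have h3 := hT3 z (by linarith)
        have h4 : L * (w - z) ≤ L * η := mul_le_mul_of_nonneg_left (by linarith) hL0
        refine h2.trans ?_
        rw [mul_add]
        linarith
      · have h2 := hL w (z - w) (by linarith) (by linarith) (by linarith)
        rw [show w + (z - w) = z by ring] at h2
        have h3 := hT3 w (by linarith)
        have h4 : L * (z - w) ≤ L * η := mul_le_mul_of_nonneg_left (by linarith) hL0
        rw [abs_sub_comm]
        refine h2.trans ?_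
        rw [mul_add]
        linarith
    have hup := hT2 w (by linarith)
    rw [abs_le] at hFup ⊢
    constructor <;> linarith
  have hi' := ii_intble hF h0 h1
  have hterm : ∀ k ∈ range d, |(∫ u in (t + u₀ + ξ k)..(t + u₀), F u) - (-ξ k) * M| ≤ ε' * A := by
    intro k hk
    have hk' := hA k hk
    have e : (∫ u in (t + u₀ + ξ k)..(t + u₀), F u) - (-ξ k) * M =
        ∫ u in (t + u₀ + ξ k)..(t + u₀), (F u - M) := by
      rw [intervalIntegral.integral_sub (hi' _ _) intervalIntegrable_const,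
        intervalIntegral.integral_const, smul_eq_mul]
      ring
    rw [e]
    have h2 := intervalIntegral.norm_integral_le_of_norm_le_const (a := t + u₀ + ξ k)
      (b := t + u₀) (f := fun u => F u - M) (C := ε') (fun u hu => by
        rw [Real.norm_eq_abs]
        refine hclose u ?_
        have hA1 := abs_le.1 hk'
        rcases le_total (t + u₀ + ξ k) (t + u₀) with h | h
        · rw [Set.uIoc_of_le h] at hu
          rw [abs_le]; constructor <;> linarith [hu.1, hu.2]
        · rw [Set.uIoc_of_ge h] at hu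
          rw [abs_le]; constructor <;> linarith [hu.1, hu.2])
    rw [Real.norm_eq_abs] at h2
    refine h2.trans (mul_le_mul_of_nonneg_left ?_ hε'.le)
    rw [show t + u₀ - (t + u₀ + ξ k) = -ξ k by ring, abs_neg]
    exact hk'
  unfold IIq
  rw [show (∑ i ∈ range d, ∫ u in (t + u₀ + ξ i)..(t + u₀), F u) - (-∑ i ∈ range d, ξ i) * M
    = ∑ i ∈ range d, ((∫ u in (t + u₀ + ξ i)..(t + u₀), F u) - (-ξ i) * M) by
      rw [Finset.sum_sub_distrib, ← Finset.sum_neg_distrib, Finset.sum_mul]]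
  refine (Finset.abs_sum_le_sum_abs _ _).trans ((Finset.sum_le_sum hterm).trans ?_)
  rw [Finset.sum_const, Finset.card_range, nsmul_eq_mul]
  exact hεε

theorem ii_limsup_props (h0 : ∀ t, 0 ≤ F t) (h1 : ∀ t, F t ≤ K) :
    (∀ δ, 0 < δ → ∀ᶠ t in atTop, F t < limsup F atTop + δ) ∧
    (∀ δ, 0 < δ → ∃ᶠ t in atTop, limsup F atTop - δ < F t) := by
  have hb : IsBoundedUnder (· ≤ ·) atTop F := isBoundedUnder_of ⟨K, h1⟩
  have hb' : IsBoundedUnder (· ≥ ·) atTop F := isBoundedUnder_of ⟨0, h0⟩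
  have hcb : IsCoboundedUnder (· ≤ ·) atTop F := hb'.isCoboundedUnder_le
  exact ⟨fun δ hδ => eventually_lt_of_limsup_lt (by linarith) hb,
    fun δ hδ => frequently_lt_of_lt_limsup hcb (by linarith)⟩

/-- convergence for globally bounded functions -/
theorem ii_limit (hd : 0 < d) (hF : Measurable F) (h0 : ∀ t, 0 ≤ F t) (h1 : ∀ t, F t ≤ K)
    (hL : ∀ t u, t₀ ≤ t → 0 ≤ u → u ≤ 1 → |F (t + u) - F t| ≤ L * (u + Real.exp (-t)))
    (hh : ∀ t, t₀ ≤ t → |F t - (∑ i ∈ range d, F (t + ξ i)) / d| ≤ C / t ^ 2)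
    (hdr : ∑ i ∈ range d, ξ i < 0)
    {i j : ℕ} (hi : i < d) (hj : j < d) (hirr : Irrational (ξ i / ξ j)) :
    ∃ l : ℝ, Tendsto F atTop (𝓝 l) := by
  have hd0 : (0 : ℝ) < d := by exact_mod_cast hd
  have hL0 : 0 ≤ L := by
    have h2 := hL (max t₀ 0) 0 (le_max_left _ _) le_rfl zero_le_one
    have h3 := Real.exp_pos (-(max t₀ 0))
    have h4 : 0 ≤ L * Real.exp (-(max t₀ 0)) := by
      refine le_trans (abs_nonneg _) (h2.trans (le_of_eq ?_)); rw [zero_add]
    exact nonneg_of_mul_nonneg_left h4 h3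
  have hC : 0 ≤ C := by
    have h2 := hh (max t₀ 1) (le_max_left _ _)
    have h3 : (0 : ℝ) < (max t₀ 1) ^ 2 := by positivity
    have h4 : 0 ≤ C / (max t₀ 1) ^ 2 := (abs_nonneg _).trans h2
    have h5 := mul_nonneg h4 h3.le
    rwa [div_mul_cancel₀ _ h3.ne'] at h5
  set D : ℝ := -∑ i ∈ range d, ξ i with hD
  have hDpos : 0 < D := by rw [hD]; linarith
  set F' : ℝ → ℝ := fun t => K - F t with hF'def
  have hF' : Measurable F' := measurable_const.sub hF
  have h0' : ∀ t, 0 ≤ F' t := fun t => by simp only [hF'def]; linarith [h1 t]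
  have h1' : ∀ t, F' t ≤ K := fun t => by simp only [hF'def]; linarith [h0 t]
  have hL' : ∀ t u, t₀ ≤ t → 0 ≤ u → u ≤ 1 → |F' (t + u) - F' t| ≤ L * (u + Real.exp (-t)) := by
    intro t s ht hs hs1
    have := hL t s ht hs hs1
    simp only [hF'def]
    rw [show K - F (t + s) - (K - F t) = -(F (t + s) - F t) by ring, abs_neg]; exact this
  have hh' : ∀ t, t₀ ≤ t → |F' t - (∑ i ∈ range d, F' (t + ξ i)) / d| ≤ C / t ^ 2 := by
    intro t ht
    have := hh t ht
    simp only [hF'def]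
    rw [Finset.sum_sub_distrib, Finset.sum_const, Finset.card_range, nsmul_eq_mul]
    rw [show K - F t - (d * K - ∑ i ∈ range d, F (t + ξ i)) / d =
      -(F t - (∑ i ∈ range d, F (t + ξ i)) / d) by field_simp; ring,
      abs_neg]; exact this
  obtain ⟨p1, p2⟩ := ii_limsup_props h0 h1
  obtain ⟨q1, q2⟩ := ii_limsup_props h0' h1'
  set M := limsup F atTop with hMdef
  set M' := limsup F' atTop with hM'def
  have hII' : ∀ t, IIq d ξ F' t = K * D - IIq d ξ F t := by
    intro t
    unfold IIq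
    have hi := ii_intble hF h0 h1
    simp only [hF'def, hD]
    rw [← Finset.sum_neg_distrib, Finset.mul_sum, ← Finset.sum_sub_distrib]
    refine Finset.sum_congr rfl fun k _ => ?_
    rw [intervalIntegral.integral_sub intervalIntegrable_const (hi _ _),
      intervalIntegral.integral_const, smul_eq_mul]
    ring
  -- M + M' = K
  have hsum : M + M' = K := by
    by_contra hne
    have hpos : 0 < |D * (M + M' - K)| := by
      apply abs_pos.2
      apply mul_ne_zero hDpos.ne'
      intro h; apply hne; linarith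
    set e := |D * (M + M' - K)| with he
    set T := max (max t₀ 1) (4 * (d * C) / e + 1) with hT
    have hT1 : t₀ ≤ T := (le_max_left _ _).trans (le_max_left _ _)
    have hT2 : 1 ≤ T := (le_max_right _ _).trans (le_max_left _ _)
    have hT3 : 4 * (d * C) / e + 1 ≤ T := le_max_right _ _
    have hCT : d * C / T ≤ e / 4 := by
      rw [div_le_iff₀ (by linarith)]
      have : 4 * (d * C) / e ≤ T := by linarith
      rw [div_le_iff₀ hpos] at this
      linarith
    obtain ⟨t, ht, hc⟩ := ii_close hd hF h0 h1 hL0 hL hh p1 p2 hi hj hirr (e / 8) (by positivity) T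
    obtain ⟨s, hs, hc'⟩ := ii_close hd hF' h0' h1' hL0 hL' hh' q1 q2 hi hj hirr (e / 8)
      (by positivity) T
    rw [hII'] at hc'
    rw [← hD] at hc hc'
    have k1 := ii_cauchy hd hF h0 h1 hh hC hT1 (by linarith) ht
    have k2 := ii_cauchy hd hF h0 h1 hh hC hT1 (by linarith) hs
    have hlt : e < e := by
      have h3 : D * (M + M' - K)
          = -(IIq d ξ F t - D * M) - (K * D - IIq d ξ F s - D * M')
            + (IIq d ξ F t - IIq d ξ F T) - (IIq d ξ F s - IIq d ξ F T) := by ring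
      calc e = |-(IIq d ξ F t - D * M) - (K * D - IIq d ξ F s - D * M')
            + (IIq d ξ F t - IIq d ξ F T) - (IIq d ξ F s - IIq d ξ F T)| := by rw [he, h3]
        _ ≤ |IIq d ξ F t - D * M| + |K * D - IIq d ξ F s - D * M'|
            + |IIq d ξ F t - IIq d ξ F T| + |IIq d ξ F s - IIq d ξ F T| := by
            refine (abs_sub _ _).trans ?_
            refine add_le_add_left ?_ _
            refine (abs_add_le _ _).trans ?_
            refine add_le_add_left ?_ _
            refine (abs_sub _ _).trans ?_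
            rw [abs_neg]
        _ ≤ e / 8 + e / 8 + e / 4 + e / 4 := by linarith
        _ < e := by linarith
    exact lt_irrefl _ hlt
  refine ⟨M, ?_⟩
  rw [Metric.tendsto_nhds]
  intro ε hε
  filter_upwards [p1 ε hε, q1 ε hε] with t h2 h3
  rw [Real.dist_eq, abs_lt]
  simp only [hF'def] at h3
  constructor <;> linarith

end T11

variable {d : ℕ}

/-! ### T11 : the unsigned relation: convergence -/

theorem limit (hd : 2 ≤ d) {ξ : ℕ → ℝ} {F : ℝ → ℝ} (hF : Measurable F)
    {C t₀ L K : ℝ} (h0 : ∀ t, t₀ ≤ t → 0 ≤ F t) (hb : ∀ t, t₀ ≤ t → F t ≤ K)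
    (hL : ∀ t u, t₀ ≤ t → 0 ≤ u → u ≤ 1 → |F (t + u) - F t| ≤ L * (u + Real.exp (-t)))
    (hh : ∀ t, t₀ ≤ t → |F t - (∑ i ∈ range d, F (t + ξ i)) / d| ≤ C / t ^ 2)
    (hdr : ∑ i ∈ range d, ξ i < 0)
    {i j : ℕ} (hi : i < d) (hj : j < d) (hirr : Irrational (ξ i / ξ j)) :
    ∃ l : ℝ, Tendsto F atTop (𝓝 l) := by
  obtain ⟨A, hA0, hA⟩ : ∃ A : ℝ, 0 ≤ A ∧ ∀ i ∈ range d, |ξ i| ≤ A :=
    ⟨∑ i ∈ range d, |ξ i|, Finset.sum_nonneg fun _ _ => abs_nonneg _, fun i hi =>
      Finset.single_le_sum (f := fun i => |ξ i|) (fun _ _ => abs_nonneg _) hi⟩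
  have hK0 : 0 ≤ K := (h0 t₀ le_rfl).trans (hb t₀ le_rfl)
  obtain ⟨F₁, hF₁⟩ : ∃ F₁ : ℝ → ℝ, F₁ = fun t => if t₀ ≤ t then F t else 0 := ⟨_, rfl⟩
  have hF1 : ∀ t, t₀ ≤ t → F₁ t = F t := fun t ht => by rw [hF₁]; simp [ht]
  have hm : Measurable F₁ := by
    rw [hF₁]
    exact Measurable.ite measurableSet_Ici hF measurable_const
  have g0 : ∀ t, 0 ≤ F₁ t := by
    intro t
    rw [hF₁]
    by_cases h : t₀ ≤ t
    · simp only [h, if_true]; exact h0 t h
    · simp only [h, if_false]; exact le_rfl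
  have g1 : ∀ t, F₁ t ≤ K := by
    intro t
    rw [hF₁]
    by_cases h : t₀ ≤ t
    · simp only [h, if_true]; exact hb t h
    · simp only [h, if_false]; exact hK0
  obtain ⟨l, hl⟩ := ii_limit (d := d) (ξ := ξ) (F := F₁) (L := L) (C := C) (t₀ := t₀ + A) (K := K)
    (by omega) hm g0 g1 (by
      intro t u ht hu hu1
      rw [hF1 _ (by linarith), hF1 _ (by linarith)]
      exact hL t u (by linarith) hu hu1) (by
      intro t ht
      rw [hF1 t (by linarith)]
      have e : ∑ i ∈ range d, F₁ (t + ξ i) = ∑ i ∈ range d, F (t + ξ i) :=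
        Finset.sum_congr rfl fun k hk => hF1 _ (by
          have := (abs_le.1 (hA k hk)).1
          linarith)
      rw [e]
      exact hh t (by linarith)) hdr hi hj hirr
  refine ⟨l, hl.congr' ?_⟩
  filter_upwards [eventually_ge_atTop t₀] with t ht
  exact hF1 t ht

end Pool.Agent.H319R3.DN
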