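import Pool.Agent.H319R3.DN.Defs

/-! T12: window densities. -/

set_option autoImplicit false

namespace Pool.Agent.H319R3.DN.T12
open Pool.Agent.H319R3.GC Pool.Agent.H319R3.DN Finset Filter Topology

theorem win_fin (S : Set ℤ) {σ : ℤ} (hσ : σ = 1 ∨ σ = -1) {a b : ℝ} (hab : a ≤ b) :
    {x : ℤ | x ∈ S ∧ a ≤ ((σ * x : ℤ) : ℝ) ∧ ((σ * x : ℤ) : ℝ) < b}.Finite ∧
    ({x : ℤ | x ∈ S ∧ a ≤ ((σ * x : ℤ) : ℝ) ∧ ((σ * x : ℤ) : ℝ) < b}.ncard : ℝ) ≤ (b - a) + 1 := by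
  have hinj : Function.Injective (fun x : ℤ => σ * x) := by
    intro x y h
    rcases hσ with rfl | rfl
    · simpa using h
    · simpa using h
  have hsub : (fun x : ℤ => σ * x) ''
      {x : ℤ | x ∈ S ∧ a ≤ ((σ * x : ℤ) : ℝ) ∧ ((σ * x : ℤ) : ℝ) < b} ⊆
      ((Finset.Ico ⌈a⌉ ⌈b⌉ : Finset ℤ) : Set ℤ) := by
    rintro y ⟨x, ⟨_, h1, h2⟩, rfl⟩
    rw [Finset.coe_Ico, Set.mem_Ico]
    exact ⟨Int.ceil_le.2 h1, Int.lt_ceil.2 h2⟩
  have hf : ((fun x : ℤ => σ * x) ''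
      {x : ℤ | x ∈ S ∧ a ≤ ((σ * x : ℤ) : ℝ) ∧ ((σ * x : ℤ) : ℝ) < b}).Finite :=
    (Finset.finite_toSet _).subset hsub
  refine ⟨hf.of_finite_image hinj.injOn, ?_⟩
  rw [← Set.ncard_image_of_injective _ hinj]
  have h1 := Set.ncard_le_ncard hsub (Finset.finite_toSet _)
  rw [Set.ncard_coe_finset, Int.card_Ico] at h1
  have h2 : ((⌈b⌉ - ⌈a⌉).toNat : ℝ) ≤ (b - a) + 1 := by
    have h3 : (((⌈b⌉ - ⌈a⌉).toNat : ℤ) : ℝ) = ((⌈b⌉ - ⌈a⌉ : ℤ) : ℝ) := by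
      rw [Int.toNat_of_nonneg]
      have := Int.ceil_mono hab
      omega
    have h4 : ((⌈b⌉ - ⌈a⌉).toNat : ℝ) = ((⌈b⌉ - ⌈a⌉ : ℤ) : ℝ) := by exact_mod_cast h3
    rw [h4]
    push_cast
    have h5 := Int.ceil_lt_add_one b
    have h6 := Int.le_ceil a
    linarith
  exact le_trans (by exact_mod_cast h1) h2

theorem G_set_sub (S : Set ℤ) (σ : ℤ) (X : ℝ) :
    {x : ℤ | x ∈ S ∧ 0 < σ * x ∧ ((σ * x : ℤ) : ℝ) < X} ⊆
      {x : ℤ | x ∈ S ∧ (0 : ℝ) ≤ ((σ * x : ℤ) : ℝ) ∧ ((σ * x : ℤ) : ℝ) < X} := by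
  rintro x ⟨h1, h2, h3⟩
  exact ⟨h1, by exact_mod_cast h2.le, h3⟩

theorem G_finite (S : Set ℤ) {σ : ℤ} (hσ : σ = 1 ∨ σ = -1) (X : ℝ) :
    {x : ℤ | x ∈ S ∧ 0 < σ * x ∧ ((σ * x : ℤ) : ℝ) < X}.Finite := by
  rcases le_or_gt 0 X with h | h
  · exact (win_fin S hσ h).1.subset (G_set_sub S σ X)
  · convert Set.finite_empty
    ext x
    simp only [Set.mem_ofPred_eq, Set.mem_empty_iff_false, iff_false]
    rintro ⟨_, h2, h3⟩
    have h4 : (0 : ℝ) < ((σ * x : ℤ) : ℝ) := by exact_mod_cast h2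
    linarith

theorem G_mono (S : Set ℤ) {σ : ℤ} (hσ : σ = 1 ∨ σ = -1) : Monotone (G S σ) := by
  intro X Y h
  unfold G
  have : {x : ℤ | x ∈ S ∧ 0 < σ * x ∧ ((σ * x : ℤ) : ℝ) < X} ⊆
      {x : ℤ | x ∈ S ∧ 0 < σ * x ∧ ((σ * x : ℤ) : ℝ) < Y} := by
    rintro x ⟨h1, h2, h3⟩
    exact ⟨h1, h2, by linarith⟩
  exact_mod_cast Set.ncard_le_ncard this (G_finite S hσ Y)

theorem G_nonneg (S : Set ℤ) (σ : ℤ) (X : ℝ) : 0 ≤ G S σ X := Nat.cast_nonneg _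

theorem G_le (S : Set ℤ) {σ : ℤ} (hσ : σ = 1 ∨ σ = -1) {X : ℝ} (hX : 0 ≤ X) :
    G S σ X ≤ X + 1 := by
  have h1 := (win_fin S hσ hX).2
  have h2 := Set.ncard_le_ncard (G_set_sub S σ X) (win_fin S hσ hX).1
  have h3 : G S σ X ≤
      ({x : ℤ | x ∈ S ∧ (0 : ℝ) ≤ ((σ * x : ℤ) : ℝ) ∧ ((σ * x : ℤ) : ℝ) < X}.ncard : ℝ) := by
    unfold G
    exact_mod_cast h2
  linarith

theorem nw_eq (S : Set ℤ) (σ : ℤ) (a b : ℝ) :
    nw S σ a b 1 0 =
      ({x : ℤ | x ∈ S ∧ a ≤ ((σ * x : ℤ) : ℝ) ∧ ((σ * x : ℤ) : ℝ) < b}.ncard : ℝ) := by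
  unfold nw
  congr 2
  ext x
  simp only [Set.mem_ofPred_eq, Nat.cast_one, one_dvd, and_true]

theorem G_win (S : Set ℤ) {σ : ℤ} (hσ : σ = 1 ∨ σ = -1) {a b : ℝ} (ha : 0 < a) (hab : a ≤ b) :
    G S σ b = G S σ a + nw S σ a b 1 0 := by
  rw [nw_eq]
  unfold G
  have hdisj : Disjoint {x : ℤ | x ∈ S ∧ 0 < σ * x ∧ ((σ * x : ℤ) : ℝ) < a}
      {x : ℤ | x ∈ S ∧ a ≤ ((σ * x : ℤ) : ℝ) ∧ ((σ * x : ℤ) : ℝ) < b} := by
    rw [Set.disjoint_left]
    rintro x ⟨_, _, h3⟩ ⟨_, h5, _⟩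
    linarith
  have hun : {x : ℤ | x ∈ S ∧ 0 < σ * x ∧ ((σ * x : ℤ) : ℝ) < b} =
      {x : ℤ | x ∈ S ∧ 0 < σ * x ∧ ((σ * x : ℤ) : ℝ) < a} ∪
      {x : ℤ | x ∈ S ∧ a ≤ ((σ * x : ℤ) : ℝ) ∧ ((σ * x : ℤ) : ℝ) < b} := by
    ext x
    simp only [Set.mem_union, Set.mem_ofPred_eq]
    constructor
    · rintro ⟨h1, h2, h3⟩
      rcases lt_or_ge ((σ * x : ℤ) : ℝ) a with h | h
      · exact Or.inl ⟨h1, h2, h⟩
      · exact Or.inr ⟨h1, h, h3⟩
    · rintro (⟨h1, h2, h3⟩ | ⟨h1, h2, h3⟩)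
      · exact ⟨h1, h2, by linarith⟩
      · refine ⟨h1, ?_, h3⟩
        have : (0 : ℝ) < ((σ * x : ℤ) : ℝ) := by linarith
        exact_mod_cast this
  rw [hun, Set.ncard_union_eq hdisj (G_finite S hσ a) (win_fin S hσ hab).1]
  push_cast
  ring

theorem G_diff_le (S : Set ℤ) {σ : ℤ} (hσ : σ = 1 ∨ σ = -1) {a b : ℝ} (ha : 0 < a)
    (hab : a ≤ b) : G S σ b - G S σ a ≤ b - a + 1 := by
  rw [G_win S hσ ha hab, nw_eq]
  have := (win_fin S hσ hab).2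
  linarith

end Pool.Agent.H319R3.DN.T12

namespace Pool.Agent.H319R3.DN
open Pool.Agent.H319R3.GC Finset Filter Topology
open T12

theorem Fw_eq (S : Set ℤ) {σ : ℤ} (hσ : σ = 1 ∨ σ = -1) (t : ℝ) :
    Fw S σ t = (G S σ (2 * Real.exp t) - G S σ (Real.exp t)) / Real.exp t := by
  have he := Real.exp_pos t
  unfold Fw
  rw [G_win S hσ he (by linarith : Real.exp t ≤ 2 * Real.exp t)]
  ring

theorem Fw_meas (S : Set ℤ) {σ : ℤ} (hσ : σ = 1 ∨ σ = -1) : Measurable (Fw S σ) := by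
  have h : Fw S σ = fun t => (G S σ (2 * Real.exp t) - G S σ (Real.exp t)) / Real.exp t :=
    funext fun t => Fw_eq S hσ t
  rw [h]
  have hG : Measurable (G S σ) := (G_mono S hσ).measurable
  apply Measurable.div
  · apply Measurable.sub
    · exact hG.comp (measurable_const.mul Real.measurable_exp)
    · exact hG.comp Real.measurable_exp
  · exact Real.measurable_exp

theorem Fw_nonneg (S : Set ℤ) (σ : ℤ) (t : ℝ) : 0 ≤ Fw S σ t := by
  unfold Fw nw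
  have he := Real.exp_pos t
  positivity

theorem Fw_le (S : Set ℤ) {σ : ℤ} (hσ : σ = 1 ∨ σ = -1) {t : ℝ} (ht : 0 ≤ t) : Fw S σ t ≤ 2 := by
  have he := Real.one_le_exp ht
  rw [Fw_eq S hσ, div_le_iff₀ (by linarith)]
  have := G_diff_le S hσ (by linarith : 0 < Real.exp t)
    (by linarith : Real.exp t ≤ 2 * Real.exp t)
  linarith

theorem Fw_lip (S : Set ℤ) {σ : ℤ} (hσ : σ = 1 ∨ σ = -1) {t u : ℝ} (ht : 0 ≤ t) (hu : 0 ≤ u)
    (hu1 : u ≤ 1) : |Fw S σ (t + u) - Fw S σ t| ≤ 20 * (u + Real.exp (-t)) := by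
  have he := Real.exp_pos t
  rw [Fw_eq S hσ, Fw_eq S hσ]
  set A := Real.exp t with hA
  have hA1 : 1 ≤ A := Real.one_le_exp ht
  set A' := Real.exp (t + u) with hA'
  have hA'e : A' = A * Real.exp u := by rw [hA', Real.exp_add]
  have hexps : Real.exp u ≤ 1 + 2 * u := by
    have h1 := Real.exp_bound' (x := u) hu hu1 (n := 1) (by norm_num)
    simp at h1
    linarith
  have hexps1 : 1 + u ≤ Real.exp u := by linarith [Real.add_one_le_exp u]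
  have hAA' : A ≤ A' := by rw [hA'e]; nlinarith
  have hA'le : A' - A ≤ 2 * u * A := by rw [hA'e]; nlinarith
  have hA'pos : 0 < A' := by linarith
  have hneg : Real.exp (-t) = 1 / A := by rw [Real.exp_neg, one_div]
  rw [hneg]
  set g1 := G S σ (2 * A') - G S σ A' with hg1
  set g0 := G S σ (2 * A) - G S σ A with hg0
  have k1 := G_diff_le S hσ he hAA'
  have k2 := G_diff_le S hσ (by linarith : 0 < 2 * A) (by linarith : 2 * A ≤ 2 * A')
  have k3 := G_mono S hσ hAA'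
  have k4 := G_mono S hσ (by linarith : 2 * A ≤ 2 * A')
  have k5 := G_diff_le S hσ hA'pos (by linarith : A' ≤ 2 * A')
  have k6 := G_mono S hσ (by linarith : A' ≤ 2 * A')
  have hdiff : |g1 - g0| ≤ 4 * u * A + 1 := by
    rw [abs_le]; constructor <;> linarith
  have hg1' : 0 ≤ g1 := by linarith
  have hg1'' : g1 ≤ A' + 1 := by linarith
  have hsplit : g1 / A' - g0 / A = (g1 - g0) / A - g1 * (A' - A) / (A * A') := by
    field_simp
    ring
  rw [hsplit]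
  have p1 : |(g1 - g0) / A| ≤ 4 * u + 1 / A := by
    rw [abs_div, abs_of_pos he, div_le_iff₀ he]
    have : (4 * u + 1 / A) * A = 4 * u * A + 1 := by field_simp
    rw [this]; exact hdiff
  have p2 : |g1 * (A' - A) / (A * A')| ≤ 4 * u := by
    have hn : 0 ≤ g1 * (A' - A) := mul_nonneg hg1' (by linarith)
    rw [abs_of_nonneg (by positivity), div_le_iff₀ (by positivity)]
    have e1 : g1 ≤ 2 * A' := by linarith
    calc g1 * (A' - A) ≤ (2 * A') * (2 * u * A) :=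
          mul_le_mul e1 hA'le (by linarith) (by linarith)
      _ = 4 * u * (A * A') := by ring
  have p4 : 0 < 1 / A := by positivity
  refine (abs_sub _ _).trans ?_
  linarith

theorem dens_of_Fw (S : Set ℤ) {σ : ℤ} (hσ : σ = 1 ∨ σ = -1) {l : ℝ}
    (hl : Tendsto (Fw S σ) atTop (𝓝 l)) : Tendsto (fun X : ℝ => G S σ X / X) atTop (𝓝 l) := by
  rw [Metric.tendsto_atTop] at hl ⊢
  intro ε hε
  obtain ⟨T, hT⟩ := hl (ε / 4) (by positivity)
  -- recursion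
  have hrec : ∀ X : ℝ, 0 < X → G S σ (2 * X) / (2 * X) - l
      = (G S σ X / X - l) / 2 + 1 / 2 * (Fw S σ (Real.log X) - l) := by
    intro X hX
    rw [Fw_eq S hσ, Real.exp_log hX]
    field_simp
    ring
  set X0 := max (Real.exp T) 1 with hX0
  have hX0pos : 0 < X0 := by positivity
  have hX01 : 1 ≤ X0 := le_max_right _ _
  have hstep : ∀ X : ℝ, X0 ≤ X → |G S σ (2 * X) / (2 * X) - l| ≤ |G S σ X / X - l| / 2 + ε / 8 := by
    intro X hX
    have hXpos : 0 < X := by linarith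
    rw [hrec X hXpos]
    have h1 := hT (Real.log X) (by
      rw [ge_iff_le, Real.le_log_iff_exp_le hXpos]
      exact (le_max_left _ _).trans hX)
    rw [Real.dist_eq] at h1
    have h2 := abs_add_le ((G S σ X / X - l) / 2) (1 / 2 * (Fw S σ (Real.log X) - l))
    rw [abs_div, abs_mul, abs_of_pos (by norm_num : (0 : ℝ) < 2),
      abs_of_pos (by norm_num : (0 : ℝ) < 1 / 2)] at h2
    linarith
  set M := 2 + |l| with hM
  have hMpos : 0 < M := by positivity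
  have hbase : ∀ X : ℝ, X0 ≤ X → |G S σ X / X - l| ≤ M := by
    intro X hX
    have hXpos : 0 < X := by linarith
    have h1 : G S σ X / X ≤ 2 := by
      rw [div_le_iff₀ hXpos]
      have := G_le S hσ hXpos.le
      linarith
    have h2 : 0 ≤ G S σ X / X := div_nonneg (G_nonneg S σ X) hXpos.le
    calc |G S σ X / X - l| ≤ |G S σ X / X| + |l| := abs_sub _ _
      _ ≤ M := by rw [abs_of_nonneg h2]; linarith
  have hiter : ∀ n : ℕ, ∀ X : ℝ, X0 * 2 ^ n ≤ X → |G S σ X / X - l| ≤ M / 2 ^ n + ε / 4 := by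
    intro n
    induction n with
    | zero =>
      intro X hX
      have := hbase X (by simpa using hX)
      simp only [pow_zero, div_one]
      linarith
    | succ n ih =>
      intro X hX
      have hX2 : X0 * 2 ^ n ≤ X / 2 := by rw [pow_succ] at hX; linarith
      have h1 := ih (X / 2) hX2
      have h2 := hstep (X / 2) (by
        have : X0 ≤ X0 * 2 ^ n := le_mul_of_one_le_right hX0pos.le (one_le_pow₀ (by norm_num))
        linarith)
      rw [show 2 * (X / 2) = X by ring] at h2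
      have h3 : M / 2 ^ (n + 1) = M / 2 ^ n / 2 := by rw [pow_succ]; field_simp
      rw [h3]
      linarith
  obtain ⟨n, hn⟩ := pow_unbounded_of_one_lt (4 * M / ε) (by norm_num : (1 : ℝ) < 2)
  refine ⟨X0 * 2 ^ n, fun X hX => ?_⟩
  rw [Real.dist_eq]
  have h1 := hiter n X hX
  have h2 : M / 2 ^ n < ε / 4 := by
    rw [div_lt_iff₀ hε] at hn
    rw [div_lt_iff₀ (by positivity)]
    linarith
  linarith

end Pool.Agent.H319R3.DN
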