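import Pool.Agent.H319R3.DN.T7
import Pool.Agent.H319R3.DN.T8
import Pool.Agent.H319R3.DN.T10
import Pool.Agent.H319R3.DN.T11
import Pool.Agent.H319R3.DN.T12

/-!
Natural densities of invariant sets of generalised Collatz maps of coprime type: the densities
exist, and the two sides have the same density when some multiplier is negative.
-/

set_option autoImplicit false

namespace Pool.Agent.H319R3.DN
open Pool.Agent.H319R3.GC Finset Filter Topology

variable {d : ℕ} {m r : ℕ → ℤ}

theorem m_ne (h : Adm d m r) {i : ℕ} (hi : i < d) : m i ≠ 0 := by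
  intro h0
  have hc := h.cop i hi
  rw [h0, isCoprime_zero_left] at hc
  have h2 := h.two_le
  rcases Int.isUnit_iff.mp hc with h1 | h1 <;> omega

theorem density (h : Adm d m r) {i j : ℕ} (hi : i < d) (hj : j < d)
    (hij : (m i).natAbs ≠ (m j).natAbs) {S : Set ℤ} (hS : Inv d m r S) :
    ∃ l : ℤ → ℝ, (∀ σ : ℤ, (σ = 1 ∨ σ = -1) → Tendsto (fun X : ℝ => G S σ X / X) atTop (𝓝 (l σ))) ∧
      ((∃ i < d, m i < 0) → l 1 = l (-1)) := by
  classical
  obtain ⟨K, t₀, hK, ht₀, hH⟩ := harm h
  have hd2 := h.two_le
  have hdpos : (0 : ℝ) < d := by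
    have : 0 < d := by omega
    exact_mod_cast this
  have p1 : (1 : ℤ) = 1 ∨ (1 : ℤ) = -1 := Or.inl rfl
  have p2 : (-1 : ℤ) = 1 ∨ (-1 : ℤ) = -1 := Or.inr rfl
  by_cases hneg : ∃ i < d, m i < 0
  · -- some multiplier is negative
    obtain ⟨q, hq, hmq⟩ := hneg
    have hsg : ∀ i < d, (m i).sign = 1 ∨ (m i).sign = -1 := by
      intro i hi
      rcases lt_trichotomy (m i) 0 with h1 | h1 | h1
      · right; exact Int.sign_eq_neg_one_of_neg h1
      · exact absurd h1 (m_ne h hi)
      · left; exact Int.sign_eq_one_of_pos h1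
    -- the sum
    have hHlim : ∃ l : ℝ, Tendsto (fun t => Fw S 1 t + Fw S (-1) t) atTop (𝓝 l) := by
      refine limit (d := d) (ξ := fun i => Real.log (|(m i : ℝ)| / d)) hd2
        ((Fw_meas S p1).add (Fw_meas S p2)) (C := 2 * K) (t₀ := t₀) (L := 40) (K := 4)
        ?_ ?_ ?_ ?_ (drift h) hi hj (irr h hi hj hij)
      · intro t _
        exact add_nonneg (Fw_nonneg S 1 t) (Fw_nonneg S (-1) t)
      · intro t ht
        have a1 := Fw_le S p1 (t := t) (by linarith)
        have a2 := Fw_le S p2 (t := t) (by linarith)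
        linarith
      · intro t u ht hu hu1
        have a1 := Fw_lip S p1 (t := t) (u := u) (by linarith) hu hu1
        have a2 := Fw_lip S p2 (t := t) (u := u) (by linarith) hu hu1
        have e : (Fw S 1 (t + u) + Fw S (-1) (t + u)) - (Fw S 1 t + Fw S (-1) t)
          = (Fw S 1 (t + u) - Fw S 1 t) + (Fw S (-1) (t + u) - Fw S (-1) t) := by ring
        rw [e]
        refine (abs_add_le _ _).trans ?_
        linarith
      · intro t ht
        have a1 := hH S hS 1 p1 t ht
        have a2 := hH S hS (-1) p2 t ht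
        have e : ∑ i ∈ range d, (Fw S 1 (t + Real.log (|(m i : ℝ)| / d))
              + Fw S (-1) (t + Real.log (|(m i : ℝ)| / d)))
            = ∑ i ∈ range d, Fw S (1 * (m i).sign) (t + Real.log (|(m i : ℝ)| / d))
              + ∑ i ∈ range d, Fw S (-1 * (m i).sign) (t + Real.log (|(m i : ℝ)| / d)) := by
          rw [← Finset.sum_add_distrib]
          refine Finset.sum_congr rfl fun i hi => ?_
          rcases hsg i (Finset.mem_range.mp hi) with h1 | h1
          · rw [h1]; norm_num
          · rw [h1]; norm_num [add_comm]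
        rw [e]
        have e2 : (Fw S 1 t + Fw S (-1) t)
            - (∑ i ∈ range d, Fw S (1 * (m i).sign) (t + Real.log (|(m i : ℝ)| / d))
              + ∑ i ∈ range d, Fw S (-1 * (m i).sign) (t + Real.log (|(m i : ℝ)| / d))) / d
            = (Fw S 1 t - (∑ i ∈ range d, Fw S (1 * (m i).sign)
                (t + Real.log (|(m i : ℝ)| / d))) / d)
              + (Fw S (-1) t - (∑ i ∈ range d, Fw S (-1 * (m i).sign)
                (t + Real.log (|(m i : ℝ)| / d))) / d) := by ring
        rw [e2]
        refine (abs_add_le _ _).trans ?_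
        have e3 : 2 * K / t ^ 2 = K / t ^ 2 + K / t ^ 2 := by ring
        rw [e3]
        exact add_le_add a1 a2
    -- the difference
    have hDlim : Tendsto (fun t => Fw S 1 t - Fw S (-1) t) atTop (𝓝 0) := by
      refine signed_limit (d := d) (ξ := fun i => Real.log (|(m i : ℝ)| / d))
        (s := fun i => if i < d then (((m i).sign : ℤ) : ℝ) else 1) hd2 ?_
        (C := 2 * K) (t₀ := t₀) (L := 40) (K := 4)
        ?_ ?_ ?_ hi hj hq (irr h hi hj hij) ?_
      · intro i hi
        simp only [if_pos hi]
        rcases hsg i hi with h1 | h1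
        · left; rw [h1]; norm_num
        · right; rw [h1]; norm_num
      · intro t ht
        have a1 := Fw_le S p1 (t := t) (by linarith)
        have a2 := Fw_le S p2 (t := t) (by linarith)
        have b1 := Fw_nonneg S 1 t
        have b2 := Fw_nonneg S (-1) t
        rw [abs_le]
        constructor <;> linarith
      · intro t u ht hu hu1
        have a1 := Fw_lip S p1 (t := t) (u := u) (by linarith) hu hu1
        have a2 := Fw_lip S p2 (t := t) (u := u) (by linarith) hu hu1
        have e : (Fw S 1 (t + u) - Fw S (-1) (t + u)) - (Fw S 1 t - Fw S (-1) t)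
          = (Fw S 1 (t + u) - Fw S 1 t) - (Fw S (-1) (t + u) - Fw S (-1) t) := by ring
        rw [e]
        refine (abs_sub _ _).trans ?_
        linarith
      · intro t ht
        have a1 := hH S hS 1 p1 t ht
        have a2 := hH S hS (-1) p2 t ht
        have e : ∑ i ∈ range d, (if i < d then (((m i).sign : ℤ) : ℝ) else 1)
              * (Fw S 1 (t + Real.log (|(m i : ℝ)| / d))
              - Fw S (-1) (t + Real.log (|(m i : ℝ)| / d)))
            = ∑ i ∈ range d, Fw S (1 * (m i).sign) (t + Real.log (|(m i : ℝ)| / d))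
              - ∑ i ∈ range d, Fw S (-1 * (m i).sign) (t + Real.log (|(m i : ℝ)| / d)) := by
          rw [← Finset.sum_sub_distrib]
          refine Finset.sum_congr rfl fun i hi => ?_
          rw [if_pos (Finset.mem_range.mp hi)]
          rcases hsg i (Finset.mem_range.mp hi) with h1 | h1
          · rw [h1]; norm_num
          · rw [h1]; norm_num
        rw [e]
        have e2 : (Fw S 1 t - Fw S (-1) t)
            - (∑ i ∈ range d, Fw S (1 * (m i).sign) (t + Real.log (|(m i : ℝ)| / d))
              - ∑ i ∈ range d, Fw S (-1 * (m i).sign) (t + Real.log (|(m i : ℝ)| / d))) / d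
            = (Fw S 1 t - (∑ i ∈ range d, Fw S (1 * (m i).sign)
                (t + Real.log (|(m i : ℝ)| / d))) / d)
              - (Fw S (-1) t - (∑ i ∈ range d, Fw S (-1 * (m i).sign)
                (t + Real.log (|(m i : ℝ)| / d))) / d) := by ring
        rw [e2]
        refine (abs_sub _ _).trans ?_
        have e3 : 2 * K / t ^ 2 = K / t ^ 2 + K / t ^ 2 := by ring
        rw [e3]
        exact add_le_add a1 a2
      · simp only [if_pos hq]
        rw [Int.sign_eq_neg_one_of_neg hmq]
        norm_num
    obtain ⟨l, hl⟩ := hHlim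
    have h1 : Tendsto (Fw S 1) atTop (𝓝 (l / 2)) := by
      have := (hl.add hDlim).div_const 2
      refine (this.congr fun t => ?_).trans (by simp)
      ring
    have h2 : Tendsto (Fw S (-1)) atTop (𝓝 (l / 2)) := by
      have := (hl.sub hDlim).div_const 2
      refine (this.congr fun t => ?_).trans (by simp)
      ring
    refine ⟨fun _ => l / 2, ?_, fun _ => rfl⟩
    intro σ hσ
    rcases hσ with rfl | rfl
    · exact dens_of_Fw S p1 h1
    · exact dens_of_Fw S p2 h2
  · -- all multipliers are positive
    have hpos : ∀ i < d, (m i).sign = 1 := by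
      intro i hi
      apply Int.sign_eq_one_of_pos
      have h0 := m_ne h hi
      have h1 : ¬ m i < 0 := fun h2 => hneg ⟨i, hi, h2⟩
      omega
    have key : ∀ σ : ℤ, (σ = 1 ∨ σ = -1) → ∃ l : ℝ, Tendsto (Fw S σ) atTop (𝓝 l) := by
      intro σ hσ
      refine limit (d := d) (ξ := fun i => Real.log (|(m i : ℝ)| / d)) hd2
        (Fw_meas S hσ) (C := K) (t₀ := t₀) (L := 20) (K := 2)
        (fun t _ => Fw_nonneg S σ t) (fun t ht => Fw_le S hσ (by linarith))
        (fun t u ht hu hu1 => Fw_lip S hσ (by linarith) hu hu1)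
        ?_ (drift h) hi hj (irr h hi hj hij)
      intro t ht
      have a1 := hH S hS σ hσ t ht
      have e : ∑ i ∈ range d, Fw S (σ * (m i).sign) (t + Real.log (|(m i : ℝ)| / d))
          = ∑ i ∈ range d, Fw S σ (t + Real.log (|(m i : ℝ)| / d)) := by
        refine Finset.sum_congr rfl fun i hi => ?_
        rw [hpos i (Finset.mem_range.mp hi), mul_one]
      rw [e] at a1
      exact a1
    obtain ⟨l1, hl1⟩ := key 1 p1
    obtain ⟨l2, hl2⟩ := key (-1) p2
    refine ⟨fun σ => if σ = 1 then l1 else l2, ?_, fun hc => absurd hc hneg⟩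
    intro σ hσ
    rcases hσ with rfl | rfl
    · simpa using dens_of_Fw S p1 hl1
    · have : ¬ ((-1 : ℤ) = 1) := by norm_num
      simp only [if_neg this]
      exact dens_of_Fw S p2 hl2

end Pool.Agent.H319R3.DN
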