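import Pool.Agent.H319R3.DN.Defs
import Pool.Agent.H319R3.GC.Main

/-! Task T14 (helper704): countable additivity of the natural density on invariant sets. -/

set_option autoImplicit false

namespace Pool.Agent.H319R3.DN
open Pool.Agent.H319R3.GC Finset Filter Topology

variable {d : ℕ} {m r : ℕ → ℤ}

theorem T14_abs {σ : ℤ} (hσ : σ = 1 ∨ σ = -1) {x : ℤ} (hx : 0 < σ * x) : |x| = σ * x := by
  rcases hσ with rfl | rfl
  · rw [one_mul] at hx ⊢; exact abs_of_pos hx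
  · have : x < 0 := by omega
    rw [abs_of_neg this]; ring

theorem T14_fin (X : ℝ) : {x : ℤ | |(x : ℝ)| ≤ X}.Finite := by
  refine (Set.finite_Icc (-⌈X⌉) ⌈X⌉).subset ?_
  intro x hx
  have h1 := abs_le.1 (show |(x : ℝ)| ≤ X from hx)
  have h2 := Int.le_ceil X
  simp only [Set.mem_Icc]
  constructor
  · have : ((-x : ℤ) : ℝ) ≤ ⌈X⌉ := by push_cast; linarith [h1.1]
    have : -x ≤ ⌈X⌉ := by exact_mod_cast this
    omega
  · have : (x : ℝ) ≤ ⌈X⌉ := by linarith [h1.2]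
    exact_mod_cast this

theorem T14_sub (S : Set ℤ) {σ : ℤ} (hσ : σ = 1 ∨ σ = -1) (X : ℝ) :
    {x : ℤ | x ∈ S ∧ 0 < σ * x ∧ ((σ * x : ℤ) : ℝ) < X} ⊆ {x : ℤ | |(x : ℝ)| ≤ X} := by
  rintro x ⟨-, h1, h2⟩
  have h3 : |(x : ℝ)| = ((σ * x : ℤ) : ℝ) := by
    rw [← T14_abs hσ h1]; push_cast; rfl
  show |(x : ℝ)| ≤ X
  rw [h3]; exact h2.le

theorem T14_Gfin (S : Set ℤ) {σ : ℤ} (hσ : σ = 1 ∨ σ = -1) (X : ℝ) :
    {x : ℤ | x ∈ S ∧ 0 < σ * x ∧ ((σ * x : ℤ) : ℝ) < X}.Finite :=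
  (T14_fin X).subset (T14_sub S hσ X)

theorem T14_iter {S : Set ℤ} (hS : Inv d m r S) {x : ℤ} (hx : x ∈ S) (k : ℕ) :
    (Tm d m r)^[k] x ∈ S := by
  induction k with
  | zero => simpa using hx
  | succ k ih =>
    rw [Function.iterate_succ_apply']
    exact (hS _).1 ih

/-- the density of an invariant set that avoids `[-y,y]` is small -/
theorem tail_small (h : Adm d m r) : ∃ C : ℝ, 0 < C ∧ ∀ S : Set ℤ, Inv d m r S → ∀ y : ℝ, 2 ≤ y →
    (∀ x ∈ S, y < |(x : ℝ)|) → ∀ σ : ℤ, (σ = 1 ∨ σ = -1) → ∀ X : ℝ, 1 ≤ X →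
      G S σ X ≤ C * X / Real.log y := by
  obtain ⟨C, hC, hm⟩ := GC.main h 1
  refine ⟨C, hC, fun S hS y hy hav σ hσ X hX => ?_⟩
  have h1 := hm X y hX hy
  rw [pow_one] at h1
  refine le_trans ?_ h1
  unfold G
  refine Nat.cast_le.2 (Set.ncard_le_ncard ?_ ((T14_fin X).subset fun x hx => hx.1))
  intro x hx
  exact ⟨T14_sub S hσ X hx, fun k => hav _ (T14_iter hS hx.1 k)⟩

theorem T14_union (A B : Set ℤ) (hAB : Disjoint A B) {σ : ℤ} (hσ : σ = 1 ∨ σ = -1) (X : ℝ) :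
    G (A ∪ B) σ X = G A σ X + G B σ X := by
  unfold G
  rw [← Nat.cast_add, ← Set.ncard_union_eq _ (T14_Gfin A hσ X) (T14_Gfin B hσ X)]
  · congr 2
    ext x
    simp only [Set.mem_union, Set.mem_setOf_eq]
    tauto
  · rw [Set.disjoint_left]
    rintro x ⟨h1, -⟩ ⟨h2, -⟩
    exact Set.disjoint_left.1 hAB h1 h2

theorem T14_nonneg (A : Set ℤ) (σ : ℤ) (X : ℝ) : 0 ≤ G A σ X := by
  unfold G; positivity

theorem T14_le (A : Set ℤ) {σ : ℤ} (hσ : σ = 1 ∨ σ = -1) {X : ℝ} (hX : 1 ≤ X) :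
    G A σ X ≤ X + 1 := by
  unfold G
  have h1 : ((fun x : ℤ => σ * x) '' {x : ℤ | x ∈ A ∧ 0 < σ * x ∧ ((σ * x : ℤ) : ℝ) < X}) ⊆
      ((Finset.Icc (1 : ℤ) ⌊X⌋ : Finset ℤ) : Set ℤ) := by
    rintro _ ⟨x, ⟨-, h1, h2⟩, rfl⟩
    simp only [Finset.coe_Icc, Set.mem_Icc]
    exact ⟨h1, Int.le_floor.2 h2.le⟩
  have hinj : Function.Injective (fun x : ℤ => σ * x) := by
    intro x y hxy
    rcases hσ with rfl | rfl <;> simpa using hxy
  have h2 := Set.ncard_le_ncard h1 (Finset.finite_toSet _)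
  rw [Set.ncard_image_of_injective _ hinj, Set.ncard_coe_finset, Int.card_Icc] at h2
  have h3 : 0 ≤ ⌊X⌋ := Int.floor_nonneg.2 (by linarith)
  have h4 : ((⌊X⌋ + 1 - 1).toNat : ℝ) = (⌊X⌋ : ℝ) := by
    have : ((⌊X⌋ + 1 - 1).toNat : ℤ) = ⌊X⌋ := by
      rw [Int.toNat_of_nonneg (by omega)]; ring
    exact_mod_cast this
  have h5 : (({x : ℤ | x ∈ A ∧ 0 < σ * x ∧ ((σ * x : ℤ) : ℝ) < X}.ncard : ℕ) : ℝ) ≤
      ((⌊X⌋ + 1 - 1).toNat : ℝ) := by exact_mod_cast h2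
  rw [h4] at h5
  linarith [Int.floor_le X]

theorem T14_sum {S : ℕ → Set ℤ} (hdis : ∀ n n', n ≠ n' → Disjoint (S n) (S n')) {σ : ℤ}
    (hσ : σ = 1 ∨ σ = -1) (X : ℝ) (N : ℕ) :
    G (⋃ n, ⋃ (_ : n < N), S n) σ X = ∑ n ∈ range N, G (S n) σ X := by
  induction N with
  | zero => simp [G]
  | succ N ih =>
    rw [Finset.sum_range_succ, ← ih, ← T14_union _ _ _ hσ]
    · congr 1
      ext x
      simp only [Set.mem_iUnion, Set.mem_union, exists_prop]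
      constructor
      · rintro ⟨n, hn, hx⟩
        rcases Nat.lt_succ_iff_lt_or_eq.1 hn with h | h
        · exact Or.inl ⟨n, h, hx⟩
        · subst h; exact Or.inr hx
      · rintro (⟨n, hn, hx⟩ | hx)
        · exact ⟨n, by omega, hx⟩
        · exact ⟨N, by omega, hx⟩
    · rw [Set.disjoint_left]
      intro x hx1 hx2
      simp only [Set.mem_iUnion, exists_prop] at hx1
      obtain ⟨n, hn, hx⟩ := hx1
      exact Set.disjoint_left.1 (hdis n N (by omega)) hx hx2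

/-- the natural density is countably additive on invariant sets -/
theorem additive (h : Adm d m r) {i j : ℕ} (hi : i < d) (hj : j < d)
    (hij : (m i).natAbs ≠ (m j).natAbs) {S : ℕ → Set ℤ} (hS : ∀ n, Inv d m r (S n))
    (hdis : ∀ n n', n ≠ n' → Disjoint (S n) (S n')) {σ : ℤ} (hσ : σ = 1 ∨ σ = -1)
    {δ : ℕ → ℝ} (hδ : ∀ n, Tendsto (fun X : ℝ => G (S n) σ X / X) atTop (𝓝 (δ n))) :
    Summable δ ∧ Tendsto (fun X : ℝ => G (⋃ n, S n) σ X / X) atTop (𝓝 (∑' n, δ n)) := by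
  have hδ0 : ∀ n, 0 ≤ δ n := by
    intro n
    refine ge_of_tendsto (hδ n) ?_
    filter_upwards [eventually_ge_atTop (1 : ℝ)] with X hX
    exact div_nonneg (T14_nonneg _ _ _) (by linarith)
  have hsumN : ∀ N : ℕ, Tendsto (fun X : ℝ => ∑ n ∈ range N, G (S n) σ X / X) atTop
      (𝓝 (∑ n ∈ range N, δ n)) := fun N => tendsto_finset_sum _ fun n _ => hδ n
  have hle : ∀ N : ℕ, ∑ n ∈ range N, δ n ≤ 2 := by
    intro N
    refine le_of_tendsto (hsumN N) ?_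
    filter_upwards [eventually_ge_atTop (1 : ℝ)] with X hX
    rw [← Finset.sum_div, ← T14_sum hdis hσ, div_le_iff₀ (by linarith)]
    have := T14_le (⋃ n, ⋃ (_ : n < N), S n) hσ hX
    linarith
  have hsm : Summable δ := summable_of_sum_range_le hδ0 hle
  refine ⟨hsm, ?_⟩
  obtain ⟨C, hC, htail⟩ := tail_small h
  rw [Metric.tendsto_atTop]
  intro ε hε
  -- choose `y`
  obtain ⟨y, hy2, hyC⟩ : ∃ y : ℝ, 2 ≤ y ∧ C / Real.log y < ε / 3 := by
    have h1 : Tendsto (fun y : ℝ => C / Real.log y) atTop (𝓝 0) :=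
      Real.tendsto_log_atTop.const_div_atTop C
    have h2 := h1.eventually (gt_mem_nhds (show (0 : ℝ) < ε / 3 by positivity))
    obtain ⟨y, hy⟩ := (h2.and (eventually_ge_atTop (2 : ℝ))).exists
    exact ⟨y, hy.2, hy.1⟩
  -- finitely many classes meet `[-y, y]`
  obtain ⟨N₀, hN₀⟩ : ∃ N₀ : ℕ, ∀ n, N₀ ≤ n → ∀ x ∈ S n, y < |(x : ℝ)| := by
    have hfin : {n : ℕ | ∃ x ∈ S n, |(x : ℝ)| ≤ y}.Finite := by
      classical
      choose! f hf using fun n (hn : n ∈ {n : ℕ | ∃ x ∈ S n, |(x : ℝ)| ≤ y}) => hn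
      refine Set.Finite.of_finite_image ((T14_fin y).subset (?_ : f '' _ ⊆ _)) ?_
      · rintro _ ⟨n, hn, rfl⟩
        exact (hf n hn).2
      · intro n hn n' hn' hnn
        by_contra hne
        exact Set.disjoint_left.1 (hdis n n' hne) (hf n hn).1 (by rw [hnn]; exact (hf n' hn').1)
    obtain ⟨N, hN⟩ := hfin.bddAbove
    refine ⟨N + 1, fun n hn x hx => ?_⟩
    by_contra hlt
    have := hN (show n ∈ {n : ℕ | ∃ x ∈ S n, |(x : ℝ)| ≤ y} from ⟨x, hx, not_lt.1 hlt⟩)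
    omega
  -- choose `N`
  obtain ⟨N, hNN, hNd⟩ : ∃ N : ℕ, N₀ ≤ N ∧ |∑ n ∈ range N, δ n - ∑' n, δ n| < ε / 3 := by
    have h1 := (Metric.tendsto_atTop.1 hsm.hasSum.tendsto_sum_nat) (ε / 3) (by positivity)
    obtain ⟨N, hN⟩ := h1
    refine ⟨max N N₀, le_max_right _ _, ?_⟩
    have := hN (max N N₀) (le_max_left _ _)
    rwa [Real.dist_eq] at this
  obtain ⟨X₀, hX₀⟩ := (Metric.tendsto_atTop.1 (hsumN N)) (ε / 3) (by positivity)
  refine ⟨max X₀ 1, fun X hX => ?_⟩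
  have hX1 : 1 ≤ X := (le_max_right _ _).trans hX
  have h1 := hX₀ X ((le_max_left _ _).trans hX)
  rw [Real.dist_eq] at h1 ⊢
  have hR : Inv d m r (⋃ n, ⋃ (_ : N ≤ n), S n) := by
    intro x
    simp only [Set.mem_iUnion, exists_prop]
    constructor
    · rintro ⟨n, hn, hx⟩; exact ⟨n, hn, (hS n x).1 hx⟩
    · rintro ⟨n, hn, hx⟩; exact ⟨n, hn, (hS n x).2 hx⟩
  have hsplit : G (⋃ n, S n) σ X = ∑ n ∈ range N, G (S n) σ X +
      G (⋃ n, ⋃ (_ : N ≤ n), S n) σ X := by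
    rw [← T14_sum hdis hσ, ← T14_union _ _ _ hσ]
    · congr 1
      ext x
      simp only [Set.mem_iUnion, Set.mem_union, exists_prop]
      constructor
      · rintro ⟨n, hx⟩
        rcases lt_or_ge n N with h | h
        · exact Or.inl ⟨n, h, hx⟩
        · exact Or.inr ⟨n, h, hx⟩
      · rintro (⟨n, -, hx⟩ | ⟨n, -, hx⟩) <;> exact ⟨n, hx⟩
    · rw [Set.disjoint_left]
      intro x hx1 hx2
      simp only [Set.mem_iUnion, exists_prop] at hx1 hx2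
      obtain ⟨n, hn, hx⟩ := hx1
      obtain ⟨n', hn', hx'⟩ := hx2
      exact Set.disjoint_left.1 (hdis n n' (by omega)) hx hx'
  have h2 := htail _ hR y hy2 (fun x hx => by
    simp only [Set.mem_iUnion, exists_prop] at hx
    obtain ⟨n, hn, hx⟩ := hx
    exact hN₀ n (hNN.trans hn) x hx) σ hσ X hX1
  have h3 := T14_nonneg (⋃ n, ⋃ (_ : N ≤ n), S n) σ X
  have h4 : G (⋃ n, ⋃ (_ : N ≤ n), S n) σ X / X ≤ C / Real.log y := by
    rw [div_le_iff₀ (by linarith)]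
    calc _ ≤ C * X / Real.log y := h2
      _ = _ := by ring
  have h5 : 0 ≤ G (⋃ n, ⋃ (_ : N ≤ n), S n) σ X / X := div_nonneg h3 (by linarith)
  rw [hsplit, add_div, Finset.sum_div]
  have h6 := abs_lt.1 h1
  have h7 := abs_lt.1 hNd
  rw [abs_lt]
  constructor <;> linarith [h6.1, h6.2, h7.1, h7.2]

end Pool.Agent.H319R3.DN
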