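import Pool.Agent.H319R3.DN.T1

/-! Natural densities of invariant sets of generalised Collatz maps, task T2: the exact count of a
group. -/

set_option autoImplicit false

namespace Pool.Agent.H319R3.DN
open Pool.Agent.H319R3.GC Finset Filter Topology

variable {d : ℕ} {m r : ℕ → ℤ}

theorem inv_iterate {S : Set ℤ} (hS : Inv d m r S) (n : ℕ) (x : ℤ) :
    x ∈ S ↔ (Tm d m r)^[n] x ∈ S := by
  induction n generalizing x with
  | zero => simp
  | succ n ih => rw [Function.iterate_succ_apply, ← ih (Tm d m r x)]; exact hS x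

open scoped Classical in
/-- exact count of the elements of `S` in the class of `c` mod `Q` with an itinerary in the group of
`M` and `k`-th iterate in a window -/
theorem count_exact (h : Adm d m r) {S : Set ℤ} (hS : Inv d m r S) {τ : ℤ} (hτ : τ = 1 ∨ τ = -1)
    {a' : ℝ} (ha' : 0 < a') {k Q : ℕ} (hQ : 0 < Q) (c : ℤ) {M : ℤ} (hM : M ∈ Ms d m k)
    (Z : Finset ℤ) (hZ : ∀ z : ℤ, z ∈ Z ↔ z ∈ S ∧ a' ≤ ((τ * z : ℤ) : ℝ) ∧ ((τ * z : ℤ) : ℝ) < 2 * a') :
    ({x : ℤ | x ∈ S ∧ (Q : ℤ) ∣ x - c ∧ Mw m (wd d m r k x) = M ∧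
        a' ≤ ((τ * (Tm d m r)^[k] x : ℤ) : ℝ) ∧ ((τ * (Tm d m r)^[k] x : ℤ) : ℝ) < 2 * a'}.ncard : ℝ)
      = ∑ z ∈ Z, cnt (gr d m k M) (Ww d m r) (M.natAbs * Q) (M * c - (d : ℤ) ^ k * z) := by
  have hd2 : 2 ≤ d := h.two_le
  have hd0 : (d : ℤ) ≠ 0 := by omega
  have hdk : (d : ℤ) ^ k ≠ 0 := pow_ne_zero k hd0
  obtain ⟨w₀, hw₀, hw₀M⟩ := Finset.mem_image.1 hM
  have hM0 : M ≠ 0 := by rw [← hw₀M]; exact Mw_ne_zero h (mem_LW.1 hw₀).2
  set N : ℕ := M.natAbs * Q with hN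
  have hNM : ((N : ℕ) : ℤ) ∣ M * Q := by
    rw [hN, Nat.cast_mul]
    exact mul_dvd_mul (Int.natAbs_dvd.2 dvd_rfl) dvd_rfl
  have hMN : M * Q ∣ ((N : ℕ) : ℤ) := by
    rw [hN, Nat.cast_mul]
    exact mul_dvd_mul (Int.dvd_natAbs.2 dvd_rfl) dvd_rfl
  set U : Finset (ℤ × List ℕ) := (Z ×ˢ gr d m k M).filter fun p =>
    (N : ℤ) ∣ Ww d m r p.2 - (M * c - (d : ℤ) ^ k * p.1) with hU
  have hcard : (U.card : ℝ) = ∑ z ∈ Z, cnt (gr d m k M) (Ww d m r) N (M * c - (d : ℤ) ^ k * z) := by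
    have : U.card = ∑ z ∈ Z, ((gr d m k M).filter fun w =>
        (N : ℤ) ∣ Ww d m r w - (M * c - (d : ℤ) ^ k * z)).card := by
      rw [hU, Finset.card_filter, Finset.sum_product]
      apply Finset.sum_congr rfl
      intro z _
      rw [Finset.card_filter]
    rw [this, Nat.cast_sum]
    rfl
  rw [← hcard]
  set A : Set ℤ := {x : ℤ | x ∈ S ∧ (Q : ℤ) ∣ x - c ∧ Mw m (wd d m r k x) = M ∧
        a' ≤ ((τ * (Tm d m r)^[k] x : ℤ) : ℝ) ∧ ((τ * (Tm d m r)^[k] x : ℤ) : ℝ) < 2 * a'} with hA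
  have hinj : Set.InjOn (fun x => ((Tm d m r)^[k] x, wd d m r k x)) A := by
    rintro x ⟨_, _, hxM, _, _⟩ y ⟨_, _, hyM, _, _⟩ hxy
    have h1 : (Tm d m r)^[k] x = (Tm d m r)^[k] y := congrArg Prod.fst hxy
    have h2 : wd d m r k x = wd d m r k y := congrArg Prod.snd hxy
    have hx := iter_eq h k x
    have hy := iter_eq h k y
    rw [h2, hyM] at hx
    rw [hyM] at hy
    rw [h1] at hx
    have : M * x = M * y := by linarith
    exact mul_left_cancel₀ hM0 this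
  have himg : (fun x => ((Tm d m r)^[k] x, wd d m r k x)) '' A = (U : Set (ℤ × List ℕ)) := by
    ext ⟨z, w⟩
    rw [Set.mem_image, Finset.mem_coe, hU, Finset.mem_filter, Finset.mem_product]
    constructor
    · rintro ⟨x, ⟨hxS, hxQ, hxM, hx1, hx2⟩, hxy⟩
      have e1 : (Tm d m r)^[k] x = z := congrArg Prod.fst hxy
      have e2 : wd d m r k x = w := congrArg Prod.snd hxy
      have hit := iter_eq h k x
      rw [e1] at hx1 hx2 hit
      rw [e2] at hit
      have hwM : Mw m w = M := by rw [← e2]; exact hxM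
      refine ⟨⟨(hZ z).2 ⟨?_, hx1, hx2⟩, ?_⟩, ?_⟩
      · rw [← e1]; exact (inv_iterate hS k x).1 hxS
      · refine mem_gr.2 ⟨?_, hwM⟩
        rw [← e2]; exact wd_mem hd2 k x
      · rw [hwM] at hit
        have : Ww d m r w - (M * c - (d : ℤ) ^ k * z) = M * (x - c) := by linarith
        show (N : ℤ) ∣ Ww d m r w - (M * c - (d : ℤ) ^ k * z)
        rw [this]
        exact hNM.trans (mul_dvd_mul dvd_rfl hxQ)
    · rintro ⟨⟨hz, hw⟩, hdv⟩
      obtain ⟨hzS, hz1, hz2⟩ := (hZ z).1 hz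
      obtain ⟨hw1, hwM⟩ := mem_gr.1 hw
      have hdv' : M * Q ∣ Ww d m r w - (M * c - (d : ℤ) ^ k * z) := hMN.trans hdv
      obtain ⟨t, ht⟩ := hdv'
      have hx : M * (c + Q * t) = Ww d m r w + (d : ℤ) ^ k * z := by linear_combination -ht
      have hwd : wd d m r k (c + Q * t) = w := by
        apply wd_of_dvd h hw1
        rw [hwM, hx]
        exact ⟨z, by ring⟩
      have hit := iter_eq h k (c + Q * t)
      rw [hwd, hwM, hx] at hit
      have hTz : (Tm d m r)^[k] (c + Q * t) = z := by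
        apply mul_left_cancel₀ hdk
        linarith
      refine ⟨c + Q * t, ⟨?_, ?_, ?_, ?_, ?_⟩, ?_⟩
      · rw [inv_iterate hS k, hTz]; exact hzS
      · exact ⟨t, by ring⟩
      · rw [hwd]; exact hwM
      · rw [hTz]; exact hz1
      · rw [hTz]; exact hz2
      · show ((Tm d m r)^[k] (c + Q * t), wd d m r k (c + Q * t)) = (z, w)
        rw [hTz, hwd]
  have hfin := hinj.ncard_image
  rw [himg, Set.ncard_coe_finset] at hfin
  exact_mod_cast hfin.symm

end Pool.Agent.H319R3.DN
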