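import Mathlib
import Pool.Agent.H319R3.DN.T1
import Pool.Agent.H319R3.DN.T2
import Pool.Agent.H319R3.GC.S2

/-!
Two residue classes of one group of words.
-/

set_option autoImplicit false

namespace Pool.Agent.H319R3.DN
open Pool.Agent.H319R3.GC Finset

variable {d : ℕ} {m r : ℕ → ℤ}

open scoped Classical in
theorem group_diff (h : Adm d m r) {S : Set ℤ} (hS : Inv d m r S) {τ : ℤ} (hτ : τ = 1 ∨ τ = -1)
    {a : ℝ} (ha : 0 < a) {k Q Q₀ : ℕ} (hQ : 0 < Q) (hQ₀ : 0 < Q₀) (hQQ : Q₀ ∣ Q)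
    (hQd : Nat.Coprime Q d) (hk : (d : ℝ) ^ k * Q ≤ a) (c₁ c₂ : ℤ) {M : ℤ} (hM : M ∈ Ms d m k)
    (hQM : Q₀ ∣ M.natAbs) {a' : ℝ} (ha' : a' = |(M : ℝ)| * a / (d : ℝ) ^ k) :
    |({x : ℤ | x ∈ S ∧ (Q : ℤ) ∣ x - c₁ ∧ Mw m (wd d m r k x) = M ∧
        a' ≤ ((τ * (Tm d m r)^[k] x : ℤ) : ℝ) ∧ ((τ * (Tm d m r)^[k] x : ℤ) : ℝ) < 2 * a'}.ncard : ℝ)
      - ({x : ℤ | x ∈ S ∧ (Q : ℤ) ∣ x - c₂ ∧ Mw m (wd d m r k x) = M ∧
        a' ≤ ((τ * (Tm d m r)^[k] x : ℤ) : ℝ) ∧ ((τ * (Tm d m r)^[k] x : ℤ) : ℝ) < 2 * a'}.ncard : ℝ)|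
      ≤ 4 * a / ((d : ℝ) ^ k * Q) * tv (gr d m k M) (Ww d m r) Q₀ (M.natAbs * Q) := by
  have hd2 : 2 ≤ d := h.two_le
  have hd0 : (0 : ℝ) < d := by exact_mod_cast (by omega : 0 < d)
  have hdk : (0 : ℝ) < (d : ℝ) ^ k := pow_pos hd0 k
  have hQR : (0 : ℝ) < Q := by exact_mod_cast hQ
  have hQ0R : (0 : ℝ) < Q₀ := by exact_mod_cast hQ₀
  -- the multiplier
  obtain ⟨w₀, hw₀, hw₀M⟩ := Finset.mem_image.1 hM
  have hM0 : M ≠ 0 := by rw [← hw₀M]; exact Mw_ne_zero h (mem_LW.1 hw₀).2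
  have hMd : IsCoprime M (d : ℤ) := by rw [← hw₀M]; exact Mw_cop h (mem_LW.1 hw₀).2
  have hMR : (0 : ℝ) < |(M : ℝ)| := abs_pos.2 (by exact_mod_cast hM0)
  have hMnat : ((M.natAbs : ℕ) : ℝ) = |(M : ℝ)| := by
    rw [Nat.cast_natAbs, Int.cast_abs]
  set N : ℕ := M.natAbs * Q with hN
  have hNpos : 0 < N := Nat.mul_pos (Int.natAbs_pos.2 hM0) hQ
  have hNR : (N : ℝ) = |(M : ℝ)| * Q := by rw [hN, Nat.cast_mul, hMnat]
  have hNR0 : (0 : ℝ) < N := by exact_mod_cast hNpos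
  have ha'0 : 0 < a' := by rw [ha']; positivity
  have ha'N : a' / N = a / ((d : ℝ) ^ k * Q) := by
    rw [ha', hNR]; field_simp
  have hone : 1 ≤ a' / N := by
    rw [ha'N, le_div_iff₀ (by positivity), one_mul]; exact hk
  set g := gr d m k M with hg
  have hdkN : IsCoprime (-(d : ℤ) ^ k) (N : ℤ) := by
    have h1 : IsCoprime ((d : ℤ) ^ k) M := (hMd.symm).pow_left
    have h2 : IsCoprime ((d : ℤ) ^ k) (Q : ℤ) := by
      have := Nat.isCoprime_iff_coprime.2 (hQd.symm.pow_left k)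
      push_cast at this
      exact this
    have h3 : IsCoprime ((d : ℤ) ^ k) (M * Q) := h1.mul_right h2
    have h4 : IsCoprime ((d : ℤ) ^ k) (N : ℤ) := by
      refine IsCoprime.of_isCoprime_of_dvd_right h3 ?_
      rw [hN, Nat.cast_mul]
      exact mul_dvd_mul (Int.natAbs_dvd.2 dvd_rfl) dvd_rfl
    exact h4.neg_left
  have hQ0N : Q₀ ∣ N := dvd_mul_of_dvd_right hQQ _
  -- the finite set of endpoints
  have hfinW := (nw_fin hτ (by linarith : a' ≤ 2 * a') (Q := 1) (by norm_num) 0).1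
  have hfinZ : {z : ℤ | z ∈ S ∧ a' ≤ ((τ * z : ℤ) : ℝ) ∧ ((τ * z : ℤ) : ℝ) < 2 * a'}.Finite := by
    apply hfinW.subset
    rintro z ⟨_, h1, h2⟩
    exact ⟨h1, h2, by simp⟩
  set Z : Finset ℤ := hfinZ.toFinset with hZ
  have hZmem : ∀ z, z ∈ Z ↔ z ∈ S ∧ a' ≤ ((τ * z : ℤ) : ℝ) ∧ ((τ * z : ℤ) : ℝ) < 2 * a' := by
    intro z; rw [hZ, Set.Finite.mem_toFinset]; rfl
  rw [count_exact h hS hτ ha'0 hQ c₁ hM Z hZmem, count_exact h hS hτ ha'0 hQ c₂ hM Z hZmem]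
  rw [← hg, ← hN]
  -- the deviations
  set dev : ℤ → ℝ := fun e => |cnt g (Ww d m r) N e - cnt g (Ww d m r) Q₀ e * Q₀ / N| with hdev
  have hperN : ∀ x : ℤ, dev (x + N) = dev x := by
    intro x
    simp only [hdev]
    rw [cnt_congr g (Ww d m r) (D := N) (c := x + N) (c' := x) (by simp),
      cnt_congr g (Ww d m r) (D := Q₀) (c := x + N) (c' := x)
        (by simpa using (Int.natCast_dvd_natCast.2 hQ0N))]
  have part2 : ∀ c : ℤ, ∑ z ∈ Z, dev (M * c - (d : ℤ) ^ k * z)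
      ≤ 2 * a / ((d : ℝ) ^ k * Q) * tv g (Ww d m r) Q₀ N := by
    intro c
    have hs := s2_sum_classes Z hNpos (F := fun z => dev (M * c - (d : ℤ) ^ k * z))
      (K := 2 * a / ((d : ℝ) ^ k * Q)) ?_ ?_ ?_
    · refine hs.trans (le_of_eq ?_)
      congr 1
      have := sum_affine hNpos hperN hdkN (M * c)
      rw [tv]
      rw [show (∑ c ∈ range N, |cnt g (Ww d m r) N (c : ℤ) - cnt g (Ww d m r) Q₀ (c : ℤ) * Q₀ / N|)
        = ∑ c ∈ range N, dev (c : ℤ) from rfl, ← this]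
      apply Finset.sum_congr rfl
      intro e _
      congr 1
      ring
    · intro x
      show dev (M * c - (d : ℤ) ^ k * (x + N)) = _
      exact s2_per_congr hperN ⟨-(d : ℤ) ^ k, by ring⟩
    · intro x; exact abs_nonneg _
    · intro e
      have hb := (nw_fin hτ (by linarith : a' ≤ 2 * a') hNpos e)
      have h1 : (((Z.filter fun z => (N : ℤ) ∣ z - e : Finset ℤ).card : ℕ) : ℝ)
          ≤ ({x : ℤ | a' ≤ ((τ * x : ℤ) : ℝ) ∧ ((τ * x : ℤ) : ℝ) < 2 * a' ∧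
              (N : ℤ) ∣ x - e}.ncard : ℝ) := by
        have : ((Z.filter fun z => (N : ℤ) ∣ z - e : Finset ℤ) : Set ℤ)
            ⊆ {x : ℤ | a' ≤ ((τ * x : ℤ) : ℝ) ∧ ((τ * x : ℤ) : ℝ) < 2 * a' ∧ (N : ℤ) ∣ x - e} := by
          intro z hz
          rw [Finset.mem_coe, Finset.mem_filter, hZmem] at hz
          exact ⟨hz.1.2.1, hz.1.2.2, hz.2⟩
        have h2 := Set.ncard_le_ncard this hb.1
        rw [Set.ncard_coe_finset] at h2
        exact_mod_cast h2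
      refine h1.trans (hb.2.trans ?_)
      have : (2 * a' - a') / N = a' / N := by ring
      rw [this]
      have h3 : 2 * a / ((d : ℝ) ^ k * Q) = 2 * (a' / N) := by rw [ha'N]; ring
      rw [h3]
      linarith
  -- the main terms agree
  have hmain : ∀ z : ℤ, cnt g (Ww d m r) Q₀ (M * c₁ - (d : ℤ) ^ k * z)
      = cnt g (Ww d m r) Q₀ (M * c₂ - (d : ℤ) ^ k * z) := by
    intro z
    refine cnt_congr g _ ?_
    have h1 : (Q₀ : ℤ) ∣ M := by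
      have := Int.natCast_dvd_natCast.2 hQM
      exact this.trans (Int.natAbs_dvd.2 dvd_rfl)
    have h2 : M * c₁ - (d : ℤ) ^ k * z - (M * c₂ - (d : ℤ) ^ k * z) = M * (c₁ - c₂) := by ring
    rw [h2]
    exact dvd_mul_of_dvd_left h1 _
  rw [← Finset.sum_sub_distrib]
  calc |∑ z ∈ Z, (cnt g (Ww d m r) N (M * c₁ - (d : ℤ) ^ k * z)
          - cnt g (Ww d m r) N (M * c₂ - (d : ℤ) ^ k * z))|
      ≤ ∑ z ∈ Z, |cnt g (Ww d m r) N (M * c₁ - (d : ℤ) ^ k * z)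
          - cnt g (Ww d m r) N (M * c₂ - (d : ℤ) ^ k * z)| := Finset.abs_sum_le_sum_abs _ _
    _ ≤ ∑ z ∈ Z, (dev (M * c₁ - (d : ℤ) ^ k * z) + dev (M * c₂ - (d : ℤ) ^ k * z)) := by
        apply Finset.sum_le_sum
        intro z _
        simp only [hdev]
        rw [hmain z]
        set A := cnt g (Ww d m r) N (M * c₁ - (d : ℤ) ^ k * z)
        set B := cnt g (Ww d m r) N (M * c₂ - (d : ℤ) ^ k * z)
        set E := cnt g (Ww d m r) Q₀ (M * c₂ - (d : ℤ) ^ k * z) * Q₀ / N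
        calc |A - B| = |(A - E) - (B - E)| := by congr 1; ring
          _ ≤ |A - E| + |B - E| := abs_sub _ _
    _ = ∑ z ∈ Z, dev (M * c₁ - (d : ℤ) ^ k * z) + ∑ z ∈ Z, dev (M * c₂ - (d : ℤ) ^ k * z) :=
        Finset.sum_add_distrib
    _ ≤ 2 * a / ((d : ℝ) ^ k * Q) * tv g (Ww d m r) Q₀ N
        + 2 * a / ((d : ℝ) ^ k * Q) * tv g (Ww d m r) Q₀ N := add_le_add (part2 c₁) (part2 c₂)
    _ = 4 * a / ((d : ℝ) ^ k * Q) * tv g (Ww d m r) Q₀ N := by ring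

end Pool.Agent.H319R3.DN
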