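import Pool.Agent.H319R3.DN.Defs
import Pool.Agent.H319R3.GC.S3

/-! The window and the groups (task T4). -/

set_option autoImplicit false

namespace Pool.Agent.H319R3.DN
open Pool.Agent.H319R3.GC Finset

variable {d : ℕ} {m r : ℕ → ℤ}

/-- integers of a real interval in a class -/
theorem t4_side {a b : ℝ} (hab : a ≤ b) {Q : ℕ} (hQ : 0 < Q) (c : ℤ) :
    ∃ F : Finset ℤ, (∀ x : ℤ, a ≤ (x : ℝ) → (x : ℝ) < b → (Q : ℤ) ∣ x - c → x ∈ F) ∧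
      (F.card : ℝ) ≤ (b - a) / Q + 1 := by
  have hQr : (0 : ℝ) < Q := by exact_mod_cast hQ
  refine ⟨(Finset.Ico ⌈(a - c) / Q⌉ ⌈(b - c) / Q⌉).image (fun t : ℤ => c + Q * t), ?_, ?_⟩
  · intro x h1 h2 ⟨t, ht⟩
    rw [mem_image]
    refine ⟨t, ?_, by linarith⟩
    have hx : (x : ℝ) - c = Q * t := by exact_mod_cast ht
    rw [Finset.mem_Ico]
    constructor
    · rw [Int.ceil_le, div_le_iff₀ hQr]; nlinarith
    · rw [Int.lt_ceil, lt_div_iff₀ hQr]; nlinarith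
  · refine le_trans (Nat.cast_le.2 Finset.card_image_le) ?_
    rw [Int.card_Ico]
    have h3 : (a - c) / Q ≤ (b - c) / Q := by gcongr
    have h4 : ⌈(a - c) / Q⌉ ≤ ⌈(b - c) / Q⌉ := Int.ceil_mono h3
    have h5 : (((⌈(b - c) / Q⌉ - ⌈(a - c) / Q⌉).toNat : ℤ) : ℝ)
        = ((⌈(b - c) / Q⌉ - ⌈(a - c) / Q⌉ : ℤ) : ℝ) := by
      rw [Int.toNat_of_nonneg (by omega)]
    have h6 := Int.ceil_lt_add_one ((b - c) / (Q : ℝ))
    have h7 := Int.le_ceil ((a - c) / (Q : ℝ))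
    have h8 : (b - a) / Q = (b - c) / Q - (a - c) / Q := by ring
    rw [Int.cast_natCast] at h5
    rw [h5, Int.cast_sub]
    linarith

/-- number of integers `a ≤ σ x < b`, `x ≡ c mod Q` -/
theorem t4_fin {σ : ℤ} (hσ : σ = 1 ∨ σ = -1) {a b : ℝ} (hab : a ≤ b) {Q : ℕ} (hQ : 0 < Q) (c : ℤ) :
    {x : ℤ | a ≤ ((σ * x : ℤ) : ℝ) ∧ ((σ * x : ℤ) : ℝ) < b ∧ (Q : ℤ) ∣ x - c}.Finite ∧
    ({x : ℤ | a ≤ ((σ * x : ℤ) : ℝ) ∧ ((σ * x : ℤ) : ℝ) < b ∧ (Q : ℤ) ∣ x - c}.ncard : ℝ)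
      ≤ (b - a) / Q + 1 := by
  obtain ⟨F, hF, hFc⟩ := t4_side hab hQ (σ * c)
  have hσσ : σ * σ = 1 := by rcases hσ with rfl | rfl <;> norm_num
  have hsub : {x : ℤ | a ≤ ((σ * x : ℤ) : ℝ) ∧ ((σ * x : ℤ) : ℝ) < b ∧ (Q : ℤ) ∣ x - c}
      ⊆ ((F.image (fun x => σ * x) : Finset ℤ) : Set ℤ) := by
    rintro x ⟨h1, h2, h3⟩
    rw [Finset.mem_coe, mem_image]
    refine ⟨σ * x, hF _ h1 h2 ?_, by rw [← mul_assoc, hσσ, one_mul]⟩
    rw [← mul_sub]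
    exact Dvd.dvd.mul_left h3 σ
  refine ⟨(Finset.finite_toSet _).subset hsub, ?_⟩
  have h1 := Set.ncard_le_ncard hsub (Finset.finite_toSet _)
  rw [Set.ncard_coe_finset] at h1
  have h2 : (F.image (fun x => σ * x)).card ≤ F.card := Finset.card_image_le
  have h3 : ({x : ℤ | a ≤ ((σ * x : ℤ) : ℝ) ∧ ((σ * x : ℤ) : ℝ) < b ∧ (Q : ℤ) ∣ x - c}.ncard : ℝ)
      ≤ (F.card : ℝ) := Nat.cast_le.2 (h1.trans h2)
  linarith

/-- one bad word: the elements whose `k`-th iterate is in the window of the word -/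
theorem t4_word (h : Adm d m r) {σ : ℤ} (hσ : σ = 1 ∨ σ = -1)
    {a : ℝ} (ha : 0 < a) {k Q : ℕ} (hQ : 0 < Q) (hQd : Nat.Coprime Q d)
    (hk : (d : ℝ) ^ k * Q ≤ a) (c : ℤ) (w : List ℕ) :
    {x : ℤ | (Q : ℤ) ∣ x - c ∧ wd d m r k x = w ∧
      |(Mw m w : ℝ)| * a / (d : ℝ) ^ k ≤ ((σ * (Mw m w).sign * (Tm d m r)^[k] x : ℤ) : ℝ) ∧
      ((σ * (Mw m w).sign * (Tm d m r)^[k] x : ℤ) : ℝ) <
        2 * (|(Mw m w : ℝ)| * a / (d : ℝ) ^ k)}.Finite ∧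
    ({x : ℤ | (Q : ℤ) ∣ x - c ∧ wd d m r k x = w ∧
      |(Mw m w : ℝ)| * a / (d : ℝ) ^ k ≤ ((σ * (Mw m w).sign * (Tm d m r)^[k] x : ℤ) : ℝ) ∧
      ((σ * (Mw m w).sign * (Tm d m r)^[k] x : ℤ) : ℝ) <
        2 * (|(Mw m w : ℝ)| * a / (d : ℝ) ^ k)}.ncard : ℝ) ≤ 4 * a / ((d : ℝ) ^ k * Q) := by
  have hd2 : 2 ≤ d := h.two_le
  have hd0 : 0 < d := by omega
  have hdr : (0 : ℝ) < d := by exact_mod_cast hd0
  have hdk : (0 : ℝ) < (d : ℝ) ^ k := by positivity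
  have hQr : (0 : ℝ) < Q := by exact_mod_cast hQ
  have hpos : (0 : ℝ) < (d : ℝ) ^ k * Q := by positivity
  set M : ℤ := Mw m w with hMdef
  set A : Set ℤ := {x : ℤ | (Q : ℤ) ∣ x - c ∧ wd d m r k x = w ∧
      |(M : ℝ)| * a / (d : ℝ) ^ k ≤ ((σ * M.sign * (Tm d m r)^[k] x : ℤ) : ℝ) ∧
      ((σ * M.sign * (Tm d m r)^[k] x : ℤ) : ℝ) < 2 * (|(M : ℝ)| * a / (d : ℝ) ^ k)} with hA
  by_cases hne : A.Nonempty
  swap
  · rw [Set.not_nonempty_iff_eq_empty] at hne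
    rw [hne]
    refine ⟨Set.finite_empty, ?_⟩
    rw [Set.ncard_empty]
    simp only [Nat.cast_zero]
    positivity
  obtain ⟨x₀, hx1, hx2, hx3, hx4⟩ := hne
  have hmem := wd_mem (m := m) (r := r) hd2 k x₀
  rw [hx2] at hmem
  have hM0 : M ≠ 0 := Mw_ne_zero h (mem_LW.1 hmem).2
  have hMc : IsCoprime M (d : ℤ) := Mw_cop h (mem_LW.1 hmem).2
  have hMn : 0 < M.natAbs := Int.natAbs_pos.2 hM0
  have hMabs : ((M.natAbs : ℕ) : ℝ) = |(M : ℝ)| := by rw [Nat.cast_natAbs, Int.cast_abs]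
  have hMr : (0 : ℝ) < |(M : ℝ)| := by rw [← hMabs]; exact_mod_cast hMn
  have hτ : σ * M.sign = 1 ∨ σ * M.sign = -1 := by
    rcases lt_or_gt_of_ne hM0 with h1 | h1
    · rw [Int.sign_eq_neg_one_of_neg h1]
      rcases hσ with rfl | rfl <;> norm_num
    · rw [Int.sign_eq_one_of_pos h1]
      rcases hσ with rfl | rfl <;> norm_num
  set a' : ℝ := |(M : ℝ)| * a / (d : ℝ) ^ k with ha'
  have ha'0 : 0 < a' := by positivity
  have hR0 : 0 < M.natAbs * Q := Nat.mul_pos hMn hQ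
  obtain ⟨hf, hc⟩ := t4_fin hτ (by linarith : a' ≤ 2 * a') hR0 ((Tm d m r)^[k] x₀)
  have key : ∀ x ∈ A, M * (x - x₀) = (d : ℤ) ^ k * ((Tm d m r)^[k] x - (Tm d m r)^[k] x₀) := by
    intro x hx
    have e1 := iter_eq h k x
    have e2 := iter_eq h k x₀
    rw [hx.2.1] at e1
    rw [hx2] at e2
    rw [mul_sub, mul_sub, e1, e2]
    ring
  have hmaps : ∀ x ∈ A, (Tm d m r)^[k] x ∈
      {y : ℤ | a' ≤ ((σ * M.sign * y : ℤ) : ℝ) ∧ ((σ * M.sign * y : ℤ) : ℝ) < 2 * a' ∧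
        ((M.natAbs * Q : ℕ) : ℤ) ∣ y - (Tm d m r)^[k] x₀} := by
    intro x hx
    refine ⟨hx.2.2.1, hx.2.2.2, ?_⟩
    have e1 := key x hx
    have e2 : (Q : ℤ) ∣ x - x₀ := by
      have := dvd_sub hx.1 hx1
      have e : x - c - (x₀ - c) = x - x₀ := by ring
      rwa [e] at this
    have e3 : M * (Q : ℤ) ∣ (d : ℤ) ^ k * ((Tm d m r)^[k] x - (Tm d m r)^[k] x₀) := by
      rw [← e1]; exact mul_dvd_mul_left M e2
    have e4 : IsCoprime (M * (Q : ℤ)) ((d : ℤ) ^ k) := by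
      apply IsCoprime.pow_right
      exact IsCoprime.mul_left hMc (Nat.isCoprime_iff_coprime.2 hQd)
    have e5 := e4.dvd_of_dvd_mul_left e3
    have e6 : ((M.natAbs * Q : ℕ) : ℤ) ∣ M * (Q : ℤ) := by
      push_cast
      exact mul_dvd_mul_right (Int.natAbs_dvd.2 (dvd_refl M) |> fun t => by simpa using t) _
    exact e6.trans e5
  have hinj : Set.InjOn (fun x => (Tm d m r)^[k] x) A := by
    intro x hx y hy hxy
    have e1 := key x hx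
    have e2 := key y hy
    simp only at hxy
    rw [hxy, ← e2] at e1
    have := mul_left_cancel₀ hM0 e1
    linarith
  have hfinA : A.Finite := by
    apply Set.Finite.of_finite_image _ hinj
    apply hf.subset
    rintro y ⟨x, hx, rfl⟩
    exact hmaps x hx
  refine ⟨hfinA, ?_⟩
  have h5 := Set.ncard_le_ncard_of_injOn (fun x => (Tm d m r)^[k] x) hmaps hinj hf
  have h5' : (A.ncard : ℝ) ≤ ({y : ℤ | a' ≤ ((σ * M.sign * y : ℤ) : ℝ) ∧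
      ((σ * M.sign * y : ℤ) : ℝ) < 2 * a' ∧
        ((M.natAbs * Q : ℕ) : ℤ) ∣ y - (Tm d m r)^[k] x₀}.ncard : ℝ) := by exact_mod_cast h5
  refine h5'.trans (hc.trans ?_)
  have h6 : (1 : ℝ) ≤ a / ((d : ℝ) ^ k * Q) := (one_le_div hpos).2 hk
  have h7 : (((M.natAbs * Q : ℕ)) : ℝ) = |(M : ℝ)| * Q := by push_cast; rw [hMabs]
  rw [h7]
  have h8 : (2 * a' - a') / (|(M : ℝ)| * Q) = a / ((d : ℝ) ^ k * Q) := by
    rw [ha']; field_simp; ring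
  have h9 : 4 * a / ((d : ℝ) ^ k * Q) = 4 * (a / ((d : ℝ) ^ k * Q)) := by ring
  rw [h8, h9]
  linarith

open scoped Classical in
/-- `Bad` = words with large offset or with a multiplier outside the given range -/
theorem window_groups (h : Adm d m r) (S : Set ℤ) {σ : ℤ} (hσ : σ = 1 ∨ σ = -1)
    {a : ℝ} (ha : 0 < a) {k Q i₁ i₂ : ℕ} (hQ : 0 < Q) (hQd : Nat.Coprime Q d)
    (hk : (d : ℝ) ^ k * Q ≤ a) (c : ℤ) (Bad : Finset (List ℕ)) {V : ℝ}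
    (hV0 : 0 ≤ V) (hVa : (d : ℝ) ^ k * V < a)
    (hV : ∀ w ∈ LW d k, w ∉ Bad → |(Ww d m r w : ℝ)| ≤ (d : ℝ) ^ k * V)
    (hcnt : ∀ w ∈ LW d k, w ∉ Bad → PP d m ^ i₁ ∣ (Mw m w).natAbs ∧ (Mw m w).natAbs ∣ PP d m ^ i₂) :
    |nw S σ a (2 * a) Q c
      - ∑ M ∈ (Ms d m k).filter (fun M => PP d m ^ i₁ ∣ M.natAbs ∧ M.natAbs ∣ PP d m ^ i₂),
        ({x : ℤ | x ∈ S ∧ (Q : ℤ) ∣ x - c ∧ Mw m (wd d m r k x) = M ∧
          |(M : ℝ)| * a / (d : ℝ) ^ k ≤ ((σ * M.sign * (Tm d m r)^[k] x : ℤ) : ℝ) ∧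
          ((σ * M.sign * (Tm d m r)^[k] x : ℤ) : ℝ) < 2 * (|(M : ℝ)| * a / (d : ℝ) ^ k)}.ncard : ℝ)|
      ≤ Bad.card * (4 * a / ((d : ℝ) ^ k * Q)) + 8 * ((d : ℝ) ^ k * V / Q + 1) := by
  have hd2 : 2 ≤ d := h.two_le
  have hd0 : 0 < d := by omega
  have hdr : (0 : ℝ) < d := by exact_mod_cast hd0
  have hdk : (0 : ℝ) < (d : ℝ) ^ k := by positivity
  have hQr : (0 : ℝ) < Q := by exact_mod_cast hQ
  set F := (Ms d m k).filter (fun M => PP d m ^ i₁ ∣ M.natAbs ∧ M.natAbs ∣ PP d m ^ i₂) with hF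
  set E : ℝ := (d : ℝ) ^ k * V with hE
  have hE0 : 0 ≤ E := by positivity
  set Wn : Set ℤ := {x : ℤ | x ∈ S ∧ a ≤ ((σ * x : ℤ) : ℝ) ∧ ((σ * x : ℤ) : ℝ) < 2 * a ∧
    (Q : ℤ) ∣ x - c} with hWn
  set A1 : Set ℤ := {x : ℤ | a ≤ |(x : ℝ)| ∧ |(x : ℝ)| < 2 * a ∧ (Q : ℤ) ∣ x - c ∧
    wd d m r k x ∈ Bad} with hA1
  set A2 : Set ℤ := {x : ℤ | a ≤ ((σ * x : ℤ) : ℝ) ∧ ((σ * x : ℤ) : ℝ) < a + E ∧
    (Q : ℤ) ∣ x - c} with hA2
  set A3 : Set ℤ := {x : ℤ | 2 * a - E ≤ ((σ * x : ℤ) : ℝ) ∧ ((σ * x : ℤ) : ℝ) < 2 * a ∧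
    (Q : ℤ) ∣ x - c} with hA3
  set Bw : List ℕ → Set ℤ := fun w => {x : ℤ | (Q : ℤ) ∣ x - c ∧ wd d m r k x = w ∧
      |(Mw m w : ℝ)| * a / (d : ℝ) ^ k ≤ ((σ * (Mw m w).sign * (Tm d m r)^[k] x : ℤ) : ℝ) ∧
      ((σ * (Mw m w).sign * (Tm d m r)^[k] x : ℤ) : ℝ) <
        2 * (|(Mw m w : ℝ)| * a / (d : ℝ) ^ k)} with hBw
  set B2 : Set ℤ := {x : ℤ | a - E ≤ ((σ * x : ℤ) : ℝ) ∧ ((σ * x : ℤ) : ℝ) < a ∧
    (Q : ℤ) ∣ x - c} with hB2
  set B3 : Set ℤ := {x : ℤ | 2 * a ≤ ((σ * x : ℤ) : ℝ) ∧ ((σ * x : ℤ) : ℝ) < 2 * a + E ∧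
    (Q : ℤ) ∣ x - c} with hB3
  set G : ℤ → Set ℤ := fun M => {x : ℤ | x ∈ S ∧ (Q : ℤ) ∣ x - c ∧ Mw m (wd d m r k x) = M ∧
        |(M : ℝ)| * a / (d : ℝ) ^ k ≤ ((σ * M.sign * (Tm d m r)^[k] x : ℤ) : ℝ) ∧
        ((σ * M.sign * (Tm d m r)^[k] x : ℤ) : ℝ) < 2 * (|(M : ℝ)| * a / (d : ℝ) ^ k)} with hG
  -- the basic estimate
  have hσσ : σ * σ = 1 := by rcases hσ with rfl | rfl <;> norm_num
  have habsσ : |(σ : ℝ)| = 1 := by rcases hσ with rfl | rfl <;> norm_num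
  have hbasic : ∀ x : ℤ, wd d m r k x ∉ Bad →
      1 ≤ |(Mw m (wd d m r k x) : ℝ)| ∧
      |(Mw m (wd d m r k x) : ℝ)| * ((σ * x : ℤ) : ℝ) ≤
        (d : ℝ) ^ k * ((σ * (Mw m (wd d m r k x)).sign * (Tm d m r)^[k] x : ℤ) : ℝ) + E ∧
      (d : ℝ) ^ k * ((σ * (Mw m (wd d m r k x)).sign * (Tm d m r)^[k] x : ℤ) : ℝ) ≤
        |(Mw m (wd d m r k x) : ℝ)| * ((σ * x : ℤ) : ℝ) + E := by
    intro x hbad
    have hmem := wd_mem (m := m) (r := r) hd2 k x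
    have hM0 : Mw m (wd d m r k x) ≠ 0 := Mw_ne_zero h (mem_LW.1 hmem).2
    have hit := iter_eq h k x
    have hW := hV _ hmem hbad
    set Mx := Mw m (wd d m r k x) with hMx
    have hM1 : (1 : ℝ) ≤ |(Mx : ℝ)| := by
      have := Int.one_le_abs hM0
      have h2 : ((1 : ℤ) : ℝ) ≤ ((|Mx| : ℤ) : ℝ) := by exact_mod_cast this
      rw [Int.cast_abs] at h2
      simpa using h2
    set z : ℤ := (Tm d m r)^[k] x with hz
    set Wx : ℤ := Ww d m r (wd d m r k x) with hWx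
    have hsM : Mx.sign * Mx = |Mx| := Int.sign_mul_self_eq_abs Mx
    have e1 : (d : ℤ) ^ k * (σ * Mx.sign * z) = |Mx| * (σ * x) - σ * Mx.sign * Wx := by
      have : (d : ℤ) ^ k * (σ * Mx.sign * z) = σ * Mx.sign * ((d : ℤ) ^ k * z) := by ring
      rw [this, hit, ← hsM]; ring
    have e2 : (d : ℝ) ^ k * ((σ * Mx.sign * z : ℤ) : ℝ) =
        |(Mx : ℝ)| * ((σ * x : ℤ) : ℝ) - ((σ * Mx.sign * Wx : ℤ) : ℝ) := by
      have := congrArg (fun t : ℤ => (t : ℝ)) e1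
      simp only [Int.cast_mul, Int.cast_sub, Int.cast_pow, Int.cast_natCast, Int.cast_abs] at this ⊢
      linarith
    have hsa : |((Mx.sign : ℤ) : ℝ)| ≤ 1 := by
      rcases lt_or_gt_of_ne hM0 with h1 | h1
      · rw [Int.sign_eq_neg_one_of_neg h1]; norm_num
      · rw [Int.sign_eq_one_of_pos h1]; norm_num
    have e3 : |((σ * Mx.sign * Wx : ℤ) : ℝ)| ≤ E := by
      rw [Int.cast_mul, Int.cast_mul, abs_mul, abs_mul, habsσ, one_mul]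
      calc |((Mx.sign : ℤ) : ℝ)| * |(Wx : ℝ)| ≤ 1 * |(Wx : ℝ)| :=
            mul_le_mul_of_nonneg_right hsa (abs_nonneg _)
        _ ≤ E := by rw [one_mul]; exact hW
    have e4 := abs_le.1 e3
    refine ⟨hM1, ?_, ?_⟩
    · rw [e2]; linarith [e4.2]
    · rw [e2]; linarith [e4.1]
  -- inclusion 1
  have hsub1 : Wn ⊆ ((A1 ∪ A2) ∪ A3) ∪ ⋃ M ∈ F, G M := by
    rintro x ⟨hxS, hx1, hx2, hxQ⟩
    by_cases hbad : wd d m r k x ∈ Bad
    · refine Or.inl (Or.inl (Or.inl ⟨?_, ?_, hxQ, hbad⟩))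
      all_goals
        have e : |(x : ℝ)| = ((σ * x : ℤ) : ℝ) := by
          have h0 : 0 ≤ ((σ * x : ℤ) : ℝ) := by linarith
          rw [← abs_of_nonneg h0, Int.cast_mul, abs_mul, habsσ, one_mul]
        rw [e]
        assumption
    obtain ⟨hM1, hb1, hb2⟩ := hbasic x hbad
    have hmem := wd_mem (m := m) (r := r) hd2 k x
    set Mx := Mw m (wd d m r k x) with hMx
    set s : ℝ := ((σ * Mx.sign * (Tm d m r)^[k] x : ℤ) : ℝ) with hs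
    set y : ℝ := ((σ * x : ℤ) : ℝ) with hy
    by_cases hz1 : |(Mx : ℝ)| * a / (d : ℝ) ^ k ≤ s
    · by_cases hz2 : s < 2 * (|(Mx : ℝ)| * a / (d : ℝ) ^ k)
      · refine Or.inr ?_
        rw [Set.mem_iUnion₂]
        refine ⟨Mx, ?_, hxS, hxQ, rfl, hz1, hz2⟩
        rw [hF, Finset.mem_filter]
        exact ⟨Finset.mem_image_of_mem _ hmem, hcnt _ hmem hbad⟩
      · refine Or.inl (Or.inr ⟨?_, hx2, hxQ⟩)
        rw [not_lt] at hz2
        have h1 : 2 * (|(Mx : ℝ)| * a) ≤ (d : ℝ) ^ k * s := by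
          have := mul_le_mul_of_nonneg_left hz2 hdk.le
          have e : (d : ℝ) ^ k * (2 * (|(Mx : ℝ)| * a / (d : ℝ) ^ k)) = 2 * (|(Mx : ℝ)| * a) := by
            field_simp
          rwa [e] at this
        have h2 : |(Mx : ℝ)| * (2 * a - y) ≤ E := by nlinarith
        have h3 : 1 * (2 * a - y) ≤ |(Mx : ℝ)| * (2 * a - y) :=
          mul_le_mul_of_nonneg_right hM1 (by linarith)
        linarith
    · refine Or.inl (Or.inl (Or.inr ⟨hx1, ?_, hxQ⟩))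
      rw [not_le] at hz1
      have h1 : (d : ℝ) ^ k * s < |(Mx : ℝ)| * a := by
        have := mul_lt_mul_of_pos_left hz1 hdk
        have e : (d : ℝ) ^ k * (|(Mx : ℝ)| * a / (d : ℝ) ^ k) = |(Mx : ℝ)| * a := by
          field_simp
        rwa [e] at this
      have h2 : |(Mx : ℝ)| * (y - a) < E := by nlinarith
      have h3 : 1 * (y - a) ≤ |(Mx : ℝ)| * (y - a) :=
        mul_le_mul_of_nonneg_right hM1 (by linarith)
      linarith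
  -- inclusion 2
  have hsub2 : (⋃ M ∈ F, G M) ⊆ ((Wn ∪ B2) ∪ B3) ∪ ⋃ w ∈ Bad, Bw w := by
    intro x hx
    rw [Set.mem_iUnion₂] at hx
    obtain ⟨M, hMF, hxS, hxQ, hxM, hz1, hz2⟩ := hx
    by_cases hbad : wd d m r k x ∈ Bad
    · refine Or.inr ?_
      rw [Set.mem_iUnion₂]
      refine ⟨wd d m r k x, hbad, hxQ, rfl, ?_, ?_⟩
      · rw [hxM]; exact hz1
      · rw [hxM]; exact hz2
    obtain ⟨hM1, hb1, hb2⟩ := hbasic x hbad
    rw [hxM] at hM1 hb1 hb2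
    set s : ℝ := ((σ * M.sign * (Tm d m r)^[k] x : ℤ) : ℝ) with hs
    set y : ℝ := ((σ * x : ℤ) : ℝ) with hy
    have h1 : |(M : ℝ)| * a ≤ (d : ℝ) ^ k * s := by
      have := mul_le_mul_of_nonneg_left hz1 hdk.le
      have e : (d : ℝ) ^ k * (|(M : ℝ)| * a / (d : ℝ) ^ k) = |(M : ℝ)| * a := by field_simp
      rwa [e] at this
    have h2 : (d : ℝ) ^ k * s < 2 * (|(M : ℝ)| * a) := by
      have := mul_lt_mul_of_pos_left hz2 hdk
      have e : (d : ℝ) ^ k * (2 * (|(M : ℝ)| * a / (d : ℝ) ^ k)) = 2 * (|(M : ℝ)| * a) := by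
        field_simp
      rwa [e] at this
    by_cases hy1 : a ≤ y
    · by_cases hy2 : y < 2 * a
      · exact Or.inl (Or.inl (Or.inl ⟨hxS, hy1, hy2, hxQ⟩))
      · refine Or.inl (Or.inr ⟨not_lt.1 hy2, ?_, hxQ⟩)
        rw [not_lt] at hy2
        have h3 : |(M : ℝ)| * (y - 2 * a) < E := by nlinarith
        have h4 : 1 * (y - 2 * a) ≤ |(M : ℝ)| * (y - 2 * a) :=
          mul_le_mul_of_nonneg_right hM1 (by linarith)
        linarith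
    · refine Or.inl (Or.inl (Or.inr ⟨?_, not_le.1 hy1, hxQ⟩))
      rw [not_le] at hy1
      have h3 : |(M : ℝ)| * (a - y) ≤ E := by nlinarith
      have h4 : 1 * (a - y) ≤ |(M : ℝ)| * (a - y) :=
        mul_le_mul_of_nonneg_right hM1 (by linarith)
      linarith
  -- finiteness
  have hw1 := win_le ha.le (by linarith : a ≤ 2 * a) hQ c
  have hfin1 : A1.Finite := hw1.1.subset (by
    rintro x ⟨h1, h2, h3, _⟩; exact ⟨h1, h2, h3⟩)
  have hw2 := t4_fin hσ (by linarith : a ≤ a + E) hQ c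
  have hw3 := t4_fin hσ (by linarith : 2 * a - E ≤ 2 * a) hQ c
  have hv2 := t4_fin hσ (by linarith : a - E ≤ a) hQ c
  have hv3 := t4_fin hσ (by linarith : 2 * a ≤ 2 * a + E) hQ c
  have hWfin : Wn.Finite := (t4_fin hσ (by linarith : a ≤ 2 * a) hQ c).1.subset (by
    rintro x ⟨_, h1, h2, h3⟩; exact ⟨h1, h2, h3⟩)
  have hfinG : ∀ M, (G M).Finite := by
    intro M
    apply (s3_fin h k (2 * (|(M : ℝ)| * a / (d : ℝ) ^ k))).subset
    rintro x ⟨_, _, h0, h1, h2⟩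
    have hM0 : M ≠ 0 := by
      rw [← h0]; exact Mw_ne_zero h (mem_LW.1 (wd_mem (m := m) (r := r) hd2 k x)).2
    have hpos : 0 ≤ |(M : ℝ)| * a / (d : ℝ) ^ k := by positivity
    have hsa : |((M.sign : ℤ) : ℝ)| = 1 := by
      rcases lt_or_gt_of_ne hM0 with h1 | h1
      · rw [Int.sign_eq_neg_one_of_neg h1]; norm_num
      · rw [Int.sign_eq_one_of_pos h1]; norm_num
    have e : |(((Tm d m r)^[k] x : ℤ) : ℝ)| = ((σ * M.sign * (Tm d m r)^[k] x : ℤ) : ℝ) := by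
      rw [← abs_of_nonneg (hpos.trans h1), Int.cast_mul, Int.cast_mul, abs_mul, abs_mul, habsσ, hsa,
        one_mul, one_mul]
    show |(((Tm d m r)^[k] x : ℤ) : ℝ)| < _
    rw [e]
    exact h2
  have hUfin : (⋃ M ∈ F, G M).Finite := Set.Finite.biUnion F.finite_toSet fun M _ => hfinG M
  have hBfin : (⋃ w ∈ Bad, Bw w).Finite :=
    Set.Finite.biUnion Bad.finite_toSet fun w _ => (t4_word h hσ ha hQ hQd hk c w).1
  -- the disjoint union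
  have hdisj : (⋃ M ∈ F, G M).ncard = ∑ M ∈ F, (G M).ncard := by
    have : (⋃ M ∈ F, G M) = ((F.biUnion fun M => (hfinG M).toFinset : Finset ℤ) : Set ℤ) := by
      ext x
      simp
    rw [this, Set.ncard_coe_finset, Finset.card_biUnion]
    · apply Finset.sum_congr rfl
      intro M _
      rw [← Set.ncard_coe_finset, Set.Finite.coe_toFinset]
    · intro M _ M' _ hne
      show Disjoint (hfinG M).toFinset (hfinG M').toFinset
      rw [Finset.disjoint_left]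
      intro x hx hx'
      rw [Set.Finite.mem_toFinset] at hx hx'
      exact hne (hx.2.2.1.symm.trans hx'.2.2.1)
  -- counting
  have hnw : nw S σ a (2 * a) Q c = (Wn.ncard : ℝ) := rfl
  have hcard1 : Wn.ncard ≤ A1.ncard + A2.ncard + A3.ncard + (⋃ M ∈ F, G M).ncard := by
    have hfinU : (((A1 ∪ A2) ∪ A3) ∪ ⋃ M ∈ F, G M).Finite :=
      ((hfin1.union hw2.1).union hw3.1).union hUfin
    refine (Set.ncard_le_ncard hsub1 hfinU).trans ?_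
    refine (Set.ncard_union_le _ _).trans ?_
    refine add_le_add ?_ le_rfl
    refine (Set.ncard_union_le _ _).trans ?_
    exact add_le_add (Set.ncard_union_le _ _) le_rfl
  have hcard2 : (⋃ M ∈ F, G M).ncard ≤ Wn.ncard + B2.ncard + B3.ncard + ∑ w ∈ Bad, (Bw w).ncard := by
    have hfinU : (((Wn ∪ B2) ∪ B3) ∪ ⋃ w ∈ Bad, Bw w).Finite :=
      ((hWfin.union hv2.1).union hv3.1).union hBfin
    refine (Set.ncard_le_ncard hsub2 hfinU).trans ?_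
    refine (Set.ncard_union_le _ _).trans ?_
    refine add_le_add ?_ (Finset.set_ncard_biUnion_le Bad Bw)
    refine (Set.ncard_union_le _ _).trans ?_
    exact add_le_add (Set.ncard_union_le _ _) le_rfl
  have hcard1R : (Wn.ncard : ℝ) ≤ (A1.ncard : ℝ) + A2.ncard + A3.ncard + (⋃ M ∈ F, G M).ncard := by
    exact_mod_cast hcard1
  have hcard2R : ((⋃ M ∈ F, G M).ncard : ℝ) ≤ (Wn.ncard : ℝ) + B2.ncard + B3.ncard +
      ∑ w ∈ Bad, ((Bw w).ncard : ℝ) := by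
    exact_mod_cast hcard2
  have b1 : (A1.ncard : ℝ) ≤ Bad.card * (4 * a / ((d : ℝ) ^ k * Q)) :=
    bad_words h ha hQ hQd hk c Bad
  have b2 : (A2.ncard : ℝ) ≤ E / Q + 1 := by
    have := hw2.2
    have e : a + E - a = E := by ring
    rwa [e] at this
  have b3 : (A3.ncard : ℝ) ≤ E / Q + 1 := by
    have := hw3.2
    have e : 2 * a - (2 * a - E) = E := by ring
    rwa [e] at this
  have b4 : (B2.ncard : ℝ) ≤ E / Q + 1 := by
    have := hv2.2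
    have e : a - (a - E) = E := by ring
    rwa [e] at this
  have b5 : (B3.ncard : ℝ) ≤ E / Q + 1 := by
    have := hv3.2
    have e : 2 * a + E - 2 * a = E := by ring
    rwa [e] at this
  have b6 : ∑ w ∈ Bad, ((Bw w).ncard : ℝ) ≤ Bad.card * (4 * a / ((d : ℝ) ^ k * Q)) := by
    rw [← nsmul_eq_mul]
    apply Finset.sum_le_card_nsmul
    intro w _
    exact (t4_word h hσ ha hQ hQd hk c w).2
  have hEQ : 0 ≤ E / Q := by positivity
  have hsumR : ∑ M ∈ F, ((G M).ncard : ℝ) = ((⋃ M ∈ F, G M).ncard : ℝ) := by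
    rw [hdisj]; push_cast; rfl
  rw [hnw]
  show |(Wn.ncard : ℝ) - ∑ M ∈ F, ((G M).ncard : ℝ)| ≤ _
  rw [hsumR, abs_le]
  constructor
  · linarith
  · linarith

end Pool.Agent.H319R3.DN
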