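import Pool.Agent.H319R3.DN.T5pre
import Pool.Agent.H319R3.DN.T3
import Pool.Agent.H319R3.DN.T4

/-! Equidistribution of invariant sets in residue classes (task T5). -/

set_option autoImplicit false

namespace Pool.Agent.H319R3.DN
open Pool.Agent.H319R3.GC Finset

variable {d : ℕ} {m r : ℕ → ℤ}

/-- T5: equidistribution in residue classes -/
theorem equi (h : Adm d m r) (B : ℕ) : ∃ ν L₀ C : ℝ, 0 < ν ∧ 1 ≤ L₀ ∧ 0 < C ∧
    ∀ S : Set ℤ, Inv d m r S → ∀ σ : ℤ, (σ = 1 ∨ σ = -1) → ∀ a : ℝ, 0 < a → L₀ ≤ Real.log a →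
      ∀ c₁ c₂ : ℤ,
      |nw S σ a (2 * a) (PP d m ^ ⌊ν * Real.log a⌋₊) c₁
        - nw S σ a (2 * a) (PP d m ^ ⌊ν * Real.log a⌋₊) c₂|
        ≤ C / (Real.log a) ^ B * (a / (PP d m ^ ⌊ν * Real.log a⌋₊ : ℕ)) := by
  classical
  refine equi_of (d := d) (m := m) (r := r) ?_ ?_ h B
  · intro S σ hσ a ha k Q i₁ i₂ hQ hQd hk c Bad V hV0 hVa hV hcnt
    convert window_groups h S hσ ha hQ hQd hk c Bad hV0 hVa hV hcnt
  · intro S hS τ hτ a ha k Q Q₀ hQ hQ₀ hQQ hQd hk c₁ c₂ M hM hQM a' ha'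
    convert group_diff h hS hτ ha hQ hQ₀ hQQ hQd hk c₁ c₂ hM hQM ha'

end Pool.Agent.H319R3.DN
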