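import Pool.Agent.H319R3.DN.T6a
import Pool.Agent.H319R3.DN.T5

/-! Natural densities of invariant sets of generalised Collatz maps, task T6: coarse classes. -/

set_option autoImplicit false

namespace Pool.Agent.H319R3.DN
open Pool.Agent.H319R3.GC Finset Filter Topology

variable {d : ℕ} {m r : ℕ → ℤ}

theorem equi_coarse (h : Adm d m r) (B : ℕ) : ∃ L₀ C : ℝ, 1 ≤ L₀ ∧ 0 < C ∧
    ∀ S : Set ℤ, Inv d m r S → ∀ σ : ℤ, (σ = 1 ∨ σ = -1) → ∀ a : ℝ, 0 < a → L₀ ≤ Real.log a →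
      ∀ Q : ℕ, Q ∣ PP d m → ∀ c : ℤ,
      |Q * nw S σ a (2 * a) Q c - nw S σ a (2 * a) 1 0| ≤ C * Q * a / (Real.log a) ^ B :=
  equi_coarse_of h B (equi h B)

end Pool.Agent.H319R3.DN
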