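import Pool.Agent.H319R3.DN.T1

/-! Natural densities of invariant sets of generalised Collatz maps, task T6: coarse classes
(with the equidistribution statement `equi` as a hypothesis). -/

set_option autoImplicit false

namespace Pool.Agent.H319R3.DN
open Pool.Agent.H319R3.GC Finset Filter Topology

variable {d : ℕ} {m r : ℕ → ℤ}

theorem PP_pos' (h : Adm d m r) : 0 < PP d m := by
  have := h.big; omega

/-- coarse classes, from fine classes -/
theorem equi_coarse_of (h : Adm d m r) (B : ℕ) (he : ∃ ν L₀ C : ℝ, 0 < ν ∧ 1 ≤ L₀ ∧ 0 < C ∧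
    ∀ S : Set ℤ, Inv d m r S → ∀ σ : ℤ, (σ = 1 ∨ σ = -1) → ∀ a : ℝ, 0 < a → L₀ ≤ Real.log a →
      ∀ c₁ c₂ : ℤ,
      |nw S σ a (2 * a) (PP d m ^ ⌊ν * Real.log a⌋₊) c₁
        - nw S σ a (2 * a) (PP d m ^ ⌊ν * Real.log a⌋₊) c₂|
        ≤ C / (Real.log a) ^ B * (a / (PP d m ^ ⌊ν * Real.log a⌋₊ : ℕ))) :
    ∃ L₀ C : ℝ, 1 ≤ L₀ ∧ 0 < C ∧
    ∀ S : Set ℤ, Inv d m r S → ∀ σ : ℤ, (σ = 1 ∨ σ = -1) → ∀ a : ℝ, 0 < a → L₀ ≤ Real.log a →
      ∀ Q : ℕ, Q ∣ PP d m → ∀ c : ℤ,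
      |Q * nw S σ a (2 * a) Q c - nw S σ a (2 * a) 1 0| ≤ C * Q * a / (Real.log a) ^ B := by
  obtain ⟨ν, L₀, C, hν, hL, hC, H⟩ := he
  refine ⟨max L₀ (1 / ν), 2 * C, le_max_of_le_left hL, by positivity, ?_⟩
  intro S hS σ hσ a ha hla Q hQP c
  have hL1 : L₀ ≤ Real.log a := (le_max_left _ _).trans hla
  have hL2 : 1 ≤ ν * Real.log a := by
    have := (le_max_right L₀ (1 / ν)).trans hla
    rw [div_le_iff₀ hν] at this
    linarith
  have hn : 1 ≤ ⌊ν * Real.log a⌋₊ := by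
    rw [Nat.one_le_floor_iff]; exact hL2
  have H' := H S hS σ hσ a ha hL1
  have hP := PP_pos' h
  have hQ0 : 0 < Q := Nat.pos_of_dvd_of_pos hQP hP
  obtain ⟨R, hR⟩ : Q ∣ PP d m ^ ⌊ν * Real.log a⌋₊ := hQP.trans (dvd_pow_self _ (by omega))
  rw [hR] at H'
  have hQR0 : 0 < Q * R := by rw [← hR]; positivity
  have hR0 : 0 < R := Nat.pos_of_mul_pos_left hQR0 |> fun _ => by
    rcases Nat.eq_zero_or_pos R with h0 | h0
    · rw [h0] at hQR0; simp at hQR0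
    · exact h0
  have hlog : 0 < Real.log a := by linarith
  set E : ℝ := C / (Real.log a) ^ B * (a / (Q * R : ℕ)) with hE
  have hab : a ≤ 2 * a := by linarith
  have s1 := nw_split S hσ hab hQ0 hR0 c
  have s2 := nw_split S hσ hab (Q := 1) one_pos hQR0 0
  rw [s1, s2]
  set u := nw S σ a (2 * a) (Q * R) 0 with hu
  have e1 : |∑ j ∈ range R, nw S σ a (2 * a) (Q * R) (c + Q * j) - R * u| ≤ R * E := by
    have : ∑ j ∈ range R, nw S σ a (2 * a) (Q * R) (c + Q * j) - R * u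
        = ∑ j ∈ range R, (nw S σ a (2 * a) (Q * R) (c + Q * j) - u) := by
      rw [Finset.sum_sub_distrib]; simp
    rw [this]
    refine (Finset.abs_sum_le_sum_abs _ _).trans ?_
    refine (Finset.sum_le_sum fun j _ => H' _ _).trans ?_
    simp
  have e2 : |∑ j ∈ range (Q * R), nw S σ a (2 * a) (1 * (Q * R)) (0 + (1 : ℕ) * j)
      - (Q * R : ℕ) * u| ≤ (Q * R : ℕ) * E := by
    have : ∑ j ∈ range (Q * R), nw S σ a (2 * a) (1 * (Q * R)) (0 + (1 : ℕ) * j)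
        - (Q * R : ℕ) * u
        = ∑ j ∈ range (Q * R), (nw S σ a (2 * a) (1 * (Q * R)) (0 + (1 : ℕ) * j) - u) := by
      rw [Finset.sum_sub_distrib]; simp
    rw [this]
    refine (Finset.abs_sum_le_sum_abs _ _).trans ?_
    refine (Finset.sum_le_sum (g := fun _ => E) fun j _ => ?_).trans ?_
    · rw [one_mul]; exact H' _ _
    · simp
  have hQr : (1 : ℝ) ≤ Q := by exact_mod_cast hQ0
  have hRr : (0 : ℝ) < R := by exact_mod_cast hR0
  have hEe : (Q * R : ℕ) * E = C * a / (Real.log a) ^ B := by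
    rw [hE]; push_cast
    field_simp
  have key : |Q * ∑ j ∈ range R, nw S σ a (2 * a) (Q * R) (c + Q * j)
      - ∑ j ∈ range (Q * R), nw S σ a (2 * a) (1 * (Q * R)) (0 + (1 : ℕ) * j)|
      ≤ 2 * ((Q * R : ℕ) * E) := by
    rw [abs_le] at e1 e2 ⊢
    have h1 := mul_le_mul_of_nonneg_left e1.1 (by linarith : (0 : ℝ) ≤ Q)
    have h2 := mul_le_mul_of_nonneg_left e1.2 (by linarith : (0 : ℝ) ≤ Q)
    push_cast at *
    constructor <;> nlinarith [e2.1, e2.2]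
  refine key.trans ?_
  rw [hEe]
  have h3 : 0 ≤ C * a / (Real.log a) ^ B := by positivity
  have h4 : 2 * C * Q * a / (Real.log a) ^ B = Q * (2 * (C * a / (Real.log a) ^ B)) := by ring
  rw [h4]
  nlinarith

end Pool.Agent.H319R3.DN
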