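import Pool.Agent.H319R3.DN.T7a
import Pool.Agent.H319R3.DN.T6

/-! T7 (helper676): the harmonic relation of the window densities. -/

set_option autoImplicit false

namespace Pool.Agent.H319R3.DN
open Pool.Agent.H319R3.GC Finset Filter Topology

variable {d : ℕ} {m r : ℕ → ℤ}

theorem harm (h : Adm d m r) : ∃ K t₀ : ℝ, 0 < K ∧ 1 ≤ t₀ ∧
    ∀ S : Set ℤ, Inv d m r S → ∀ σ : ℤ, (σ = 1 ∨ σ = -1) → ∀ t : ℝ, t₀ ≤ t →
      |Fw S σ t - (∑ i ∈ range d, Fw S (σ * (m i).sign) (t + Real.log (|(m i : ℝ)| / d))) / d|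
        ≤ K / t ^ 2 := harm_of h (equi_coarse h 2)

end Pool.Agent.H319R3.DN
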